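import Pool.Agent.WalkProg43.HK

/-! The dynamic program counts the cycles and is edge symmetric. -/

namespace Pool.Agent.WalkProg43

open SimpleGraph

variable {n : ℕ} {v : Fin n} {F : Type} [Field F]

/-- A path is determined by its edges. -/
theorem path_eq {V : Type*} {G : SimpleGraph V} {a b : V} (p : G.Walk a b) :
    ∀ (q : G.Walk a b), p.IsPath → q.IsPath → (∀ e, e ∈ p.edges ↔ e ∈ q.edges) → p = q := by
  induction p with
  | nil =>
    intro q _ hq _
    exact (Walk.isPath_iff_eq_nil.1 hq).symm
  | @cons a c b h p ih =>
    intro q hp hq he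
    cases q with
    | nil =>
      have := Walk.isPath_iff_eq_nil.1 hp
      simp at this
    | @cons _ d _ h' q =>
      rw [Walk.cons_isPath_iff] at hp hq
      have h1 : s(a, c) ∈ (Walk.cons h' q).edges := (he _).1 (by simp)
      rw [Walk.edges_cons, List.mem_cons] at h1
      rcases h1 with h1 | h1
      · have hcd : c = d := by
          rw [Sym2.eq_iff] at h1
          rcases h1 with h1 | h1
          · exact h1.2
          · exact absurd h1.1 h'.ne
        subst hcd
        have hpq : p = q := by
          refine ih q hp.1 hq.1 fun e => ?_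
          have h2 := he e
          rw [Walk.edges_cons, Walk.edges_cons, List.mem_cons, List.mem_cons] at h2
          constructor
          · intro hep
            rcases h2.1 (Or.inr hep) with h3 | h3
            · exact absurd (p.fst_mem_support_of_mem_edges (h3 ▸ hep)) hp.2
            · exact h3
          · intro heq
            rcases h2.2 (Or.inr heq) with h3 | h3
            · exact absurd (q.fst_mem_support_of_mem_edges (h3 ▸ heq)) hq.2
            · exact h3
        rw [hpq]
      · exact absurd (q.fst_mem_support_of_mem_edges h1) hq.2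

theorem cyc_eq {V : Type*} {G : SimpleGraph V} {a : V} (p q : G.Walk a a) (hp : p.IsCycle)
    (hq : q.IsCycle) (he : ∀ e, e ∈ p.edges ↔ e ∈ q.edges) (hs : p.snd = q.snd) : p = q := by
  cases p with
  | nil => simp at hp
  | @cons _ c _ h p =>
    cases q with
    | nil => simp at hq
    | @cons _ d _ h' q =>
      rw [Walk.snd_cons, Walk.snd_cons] at hs
      subst hs
      rw [Walk.cons_isCycle_iff] at hp hq
      have hpq : p = q := by
        refine path_eq p q hp.1 hq.1 fun e => ?_
        have h2 := he e
        rw [Walk.edges_cons, Walk.edges_cons, List.mem_cons, List.mem_cons] at h2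
        constructor
        · intro hep
          rcases h2.1 (Or.inr hep) with h3 | h3
          · exact absurd (h3 ▸ hep) hp.2
          · exact h3
        · intro heq
          rcases h2.2 (Or.inr heq) with h3 | h3
          · exact absurd (h3 ▸ heq) hq.2
          · exact h3
      rw [hpq]

theorem cyc_eq_or {V : Type*} {G : SimpleGraph V} {a : V} (p q : G.Walk a a) (hp : p.IsCycle)
    (hq : q.IsCycle) (he : ∀ e, e ∈ p.edges ↔ e ∈ q.edges) : q = p ∨ q = p.reverse := by
  have h1 : q.snd ∈ p.toSubgraph.neighborSet a := by
    rw [Subgraph.mem_neighborSet, Walk.adj_toSubgraph_iff_mem_edges, he]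
    exact Walk.mk_start_snd_mem_edges hq.not_nil
  rw [hp.neighborSet_toSubgraph_endpoint] at h1
  rcases h1 with h1 | h1
  · exact Or.inl (cyc_eq q p hq hp (fun e => (he e).symm) h1)
  · refine Or.inr (cyc_eq q p.reverse hq hp.reverse (fun e => ?_) ?_)
    · rw [Walk.edges_reverse, List.mem_reverse]
      exact (he e).symm
    · rw [Walk.snd_reverse]
      exact h1

theorem ne_reverse {V : Type*} {G : SimpleGraph V} {a : V} (p : G.Walk a a) (hp : p.IsCycle) :
    p ≠ p.reverse := by
  intro h
  have h1 := hp.snd_ne_penultimate
  rw [← Walk.snd_reverse, ← h] at h1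
  exact h1 rfl

theorem length_le_of_isCycle {G : SimpleGraph (Fin n)} (p : G.Walk v v) (hp : p.IsCycle) :
    p.length ≤ n := by
  classical
  have hc1 : p.support.tail.toFinset.card = p.length := by
    rw [List.toFinset_card_of_nodup hp.support_nodup, List.length_tail, Walk.length_support]
    simp
  have h2 := Finset.card_le_univ p.support.tail.toFinset
  rw [hc1, Fintype.card_fin] at h2
  exact h2

open Classical in
theorem output_heldKarp (h2 : (2 : F) ≠ 0) (G : SimpleGraph (Fin n)) :
    (heldKarp n v F).output G = (cycleCount G v : F) := by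
  rw [output_eq]
  simp only [weight_heldKarp]
  rw [← Finset.sum_filter]
  set C : Finset (Finset (Sym2 (Fin n))) :=
    Finset.univ.filter fun E => ∃ p : G.Walk v v, p.IsCycle ∧ p.edges.toFinset = E with hC
  have hcc : cycleCount G v = C.card := by
    unfold cycleCount
    rw [← Set.ncard_coe_finset]
    congr 1
    ext E
    simp [hC]
  have hmaps : ∀ p ∈ (walksLE G v).filter (fun p => p.IsCycle), p.edges.toFinset ∈ C := by
    intro p hp
    rw [Finset.mem_filter] at hp
    rw [hC, Finset.mem_filter]
    exact ⟨Finset.mem_univ _, p, hp.2, rfl⟩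
  rw [← Finset.sum_fiberwise_of_maps_to (g := fun p : G.Walk v v => p.edges.toFinset)
    (t := C) hmaps, hcc, Finset.card_eq_sum_ones, Nat.cast_sum]
  refine Finset.sum_congr rfl fun E hE => ?_
  rw [hC, Finset.mem_filter] at hE
  obtain ⟨-, p, hp, rfl⟩ := hE
  have hfib : ((walksLE G v).filter (fun p => p.IsCycle)).filter
      (fun q => q.edges.toFinset = p.edges.toFinset) = {p, p.reverse} := by
    ext q
    simp only [Finset.mem_filter, Finset.mem_insert, Finset.mem_singleton]
    constructor
    · rintro ⟨⟨-, hq⟩, he⟩
      refine cyc_eq_or p q hp hq fun e => ?_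
      rw [← List.mem_toFinset, ← he, List.mem_toFinset]
    · rintro (rfl | rfl)
      · exact ⟨⟨mem_walksLE.2 (length_le_of_isCycle q hp), hp⟩, rfl⟩
      · refine ⟨⟨mem_walksLE.2 ?_, hp.reverse⟩, ?_⟩
        · rw [Walk.length_reverse]
          exact length_le_of_isCycle p hp
        · rw [Walk.edges_reverse]
          ext e
          simp
  rw [hfib, Finset.sum_pair (ne_reverse p hp)]
  rw [Nat.cast_one, ← two_mul, mul_inv_cancel₀ h2]

theorem isCycle_of_perm {G : SimpleGraph (Fin n)} (p q : G.Walk v v) (hp : p.IsCycle)
    (he : p.edges.Perm q.edges) : q.IsCycle := by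
  classical
  have hlen : q.length = p.length := by
    rw [← Walk.length_edges, ← Walk.length_edges, he.length_eq]
  have h3 := hp.three_le_length
  have hqn : ¬ q.Nil := by
    rw [Walk.not_nil_iff_lt_length]
    omega
  have htail : ∀ (r : G.Walk v v), ¬ r.Nil → ∀ x, x ∈ r.support.tail ↔ x ∈ r.support := by
    intro r hr x
    constructor
    · exact List.mem_of_mem_tail
    · intro hx
      cases r with
      | nil => simp at hr
      | cons h r =>
        rw [Walk.support_cons, List.mem_cons] at hx
        rw [Walk.support_cons, List.tail_cons]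
        rcases hx with rfl | hx
        · exact r.end_mem_support
        · exact hx
  have hsup : q.support.tail.toFinset = p.support.tail.toFinset := by
    ext x
    rw [List.mem_toFinset, List.mem_toFinset, htail q hqn, htail p hp.not_nil,
      Walk.mem_support_iff_exists_mem_edges_of_not_nil hqn,
      Walk.mem_support_iff_exists_mem_edges_of_not_nil hp.not_nil]
    constructor
    · rintro ⟨e, h1, h2⟩
      exact ⟨e, he.mem_iff.2 h1, h2⟩
    · rintro ⟨e, h1, h2⟩
      exact ⟨e, he.mem_iff.1 h1, h2⟩
  rw [Walk.isCycle_iff_isPath_tail_and_le_length]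
  refine ⟨?_, by omega⟩
  rw [Walk.isPath_def, Walk.support_tail_of_not_nil _ hqn, ← List.dedup_eq_self,
    ]
  refine (List.dedup_sublist _).eq_of_length ?_
  rw [← List.card_toFinset, hsup, List.card_toFinset, List.dedup_eq_self.2 hp.support_nodup,
    List.length_tail, List.length_tail, Walk.length_support, Walk.length_support, hlen]

theorem edgeSymmetric_heldKarp : (heldKarp n v F).EdgeSymmetric := by
  classical
  intro p q he
  rw [weight_heldKarp, weight_heldKarp]
  by_cases hp : p.IsCycle
  · rw [if_pos hp, if_pos (isCycle_of_perm p q hp he)]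
  · rw [if_neg hp, if_neg (fun hq => hp (isCycle_of_perm q p hq he.symm))]

theorem card_st {t : ℕ} (ht : 1 ≤ t) {a : Fin n} (ha : a ≠ v) :
    (st v t a).card = (n - 2).choose (t - 1) := by
  have hn : 2 ≤ n := by
    by_contra h
    have h1 : (a : ℕ) = v := by
      have := a.2
      have := v.2
      omega
    exact ha (Fin.ext h1)
  have h1 : st v t a = (((Finset.univ.erase v).erase a).powersetCard (t - 1)).image
      (fun S => insert a S) := by
    ext S
    rw [mem_st ha, Finset.mem_image]
    constructor
    · rintro ⟨h1, h2, h3⟩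
      refine ⟨S.erase a, ?_, Finset.insert_erase h3⟩
      rw [Finset.mem_powersetCard]
      refine ⟨fun x hx => ?_, by rw [Finset.card_erase_of_mem h3, h2]⟩
      rw [Finset.mem_erase] at hx
      rw [Finset.mem_erase, Finset.mem_erase]
      exact ⟨hx.1, fun hh => h1 (hh ▸ hx.2), Finset.mem_univ _⟩
    · rintro ⟨S', hS', rfl⟩
      rw [Finset.mem_powersetCard] at hS'
      have ha' : a ∉ S' := fun hh => by simpa using hS'.1 hh
      refine ⟨?_, by rw [Finset.card_insert_of_notMem ha', hS'.2]; omega,
        Finset.mem_insert_self _ _⟩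
      rw [Finset.mem_insert]
      rintro (hh | hh)
      · exact ha hh.symm
      · simpa using hS'.1 hh
  rw [h1, Finset.card_image_of_injOn, Finset.card_powersetCard,
    Finset.card_erase_of_mem (by simp [ha]), Finset.card_erase_of_mem (by simp)]
  · congr 1
    rw [Finset.card_univ, Fintype.card_fin]
    omega
  · intro S hS T hT hST
    simp only [Finset.mem_coe, Finset.mem_powersetCard] at hS hT
    have h2 : a ∉ S := fun hh => by simpa using hS.1 hh
    have h3 : a ∉ T := fun hh => by simpa using hT.1 hh
    have := congrArg (fun X => Finset.erase X a) hST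
    simpa [Finset.erase_insert h2, Finset.erase_insert h3] using this

theorem sum_choose (hn : 3 ≤ n) : ∑ t ∈ Finset.Icc 1 (n - 1), (n - 2).choose (t - 1) =
    2 ^ (n - 2) := by
  have : ∑ t ∈ Finset.Icc 1 (n - 1), (n - 2).choose (t - 1) =
      ∑ m ∈ Finset.range (n - 2 + 1), (n - 2).choose m := by
    refine Finset.sum_bij' (fun t _ => t - 1) (fun m _ => m + 1) ?_ ?_ ?_ ?_ ?_
    · intro t ht
      rw [Finset.mem_Icc] at ht
      rw [Finset.mem_range]
      omega
    · intro m hm
      rw [Finset.mem_range] at hm
      rw [Finset.mem_Icc]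
      omega
    · intro t ht
      rw [Finset.mem_Icc] at ht
      omega
    · intro m hm
      omega
    · intro t ht
      rfl
  rw [this, Nat.sum_range_choose]

theorem size_heldKarp (hn : 3 ≤ n) : (heldKarp n v F).size = (n - 1) * 2 ^ (n - 2) := by
  unfold WalkProgram.size
  have h1 : ∀ t ∈ Finset.Icc 1 (n - 1),
      ∑ a ∈ Finset.univ.erase v, (heldKarp n v F).nodes t a = (n - 1) * (n - 2).choose (t - 1) := by
    intro t ht
    rw [Finset.mem_Icc] at ht
    have hc : (Finset.univ.erase v : Finset (Fin n)).card = n - 1 := by simp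
    rw [Finset.sum_congr rfl (g := fun _ => (n - 2).choose (t - 1)) (fun a ha => by
      exact card_st ht.1 (Finset.ne_of_mem_erase ha)), Finset.sum_const, hc, smul_eq_mul]
  rw [Finset.sum_congr rfl h1, ← Finset.mul_sum, sum_choose hn]

end Pool.Agent.WalkProg43
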