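import Mathlib

/-! Matchings of up steps and down steps of Dyck words. -/

namespace Pool.Agent.WalkProg43

open DyckStep

theorem stack_matching (w : List DyckStep) : ∀ (k : ℕ) (st : List ℕ), st.Nodup →
    (∀ x ∈ st, x < k) →
    (∀ i, (w.take i).count D ≤ (w.take i).count U + st.length) →
    w.count D = w.count U + st.length →
    ∃ ps : List (ℕ × ℕ), (∀ p ∈ ps, p.1 < p.2 ∧ p.2 < k + w.length) ∧
      (ps.map Prod.fst ++ ps.map Prod.snd).Nodup ∧
      (∀ x, x ∈ ps.map Prod.fst ↔ x ∈ st ∨ ∃ j, w[j]? = some U ∧ x = k + j) ∧
      (∀ x, x ∈ ps.map Prod.snd ↔ ∃ j, w[j]? = some D ∧ x = k + j) ∧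
      ps.length = w.count D := by
  induction w with
  | nil =>
    intro k st h1 h2 h3 h4
    have hst : st = [] := by
      rw [← List.length_eq_zero_iff]
      simp at h4
      simp [h4]
    subst hst
    exact ⟨[], by simp, by simp, by simp, by simp, by simp⟩
  | cons s w ih =>
    intro k st h1 h2 h3 h4
    cases s with
    | U =>
      obtain ⟨ps, p1, p2, p3, p4, p5⟩ := ih (k + 1) (k :: st) (by
        rw [List.nodup_cons]
        exact ⟨fun h => lt_irrefl _ (h2 k h), h1⟩) (by
        intro x hx
        rw [List.mem_cons] at hx
        rcases hx with rfl | hx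
        · omega
        · have := h2 x hx
          omega) (by
        intro i
        have := h3 (i + 1)
        rw [List.take_succ_cons, List.count_cons, List.count_cons] at this
        simp at this ⊢
        omega) (by
        rw [List.count_cons, List.count_cons] at h4
        simp at h4 ⊢
        omega)
      refine ⟨ps, ?_, p2, ?_, ?_, ?_⟩
      · intro p hp
        have := p1 p hp
        rw [List.length_cons]
        omega
      · intro x
        rw [p3 x, List.mem_cons]
        constructor
        · rintro ((rfl | hx) | ⟨j, hj, rfl⟩)
          · exact Or.inr ⟨0, by simp, by simp⟩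
          · exact Or.inl hx
          · exact Or.inr ⟨j + 1, by simpa using hj, by ring⟩
        · rintro (hx | ⟨j, hj, rfl⟩)
          · exact Or.inl (Or.inr hx)
          · cases j with
            | zero => exact Or.inl (Or.inl (by simp))
            | succ j => exact Or.inr ⟨j, by simpa using hj, by ring⟩
      · intro x
        rw [p4 x]
        constructor
        · rintro ⟨j, hj, rfl⟩
          exact ⟨j + 1, by simpa using hj, by ring⟩
        · rintro ⟨j, hj, rfl⟩
          cases j with
          | zero => simp at hj
          | succ j => exact ⟨j, by simpa using hj, by ring⟩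
      · rw [p5]; simp
    | D =>
      cases st with
      | nil =>
        have := h3 1
        simp at this
      | cons s st =>
        rw [List.nodup_cons] at h1
        have hs : s < k := h2 s (by simp)
        have hst : ∀ x ∈ st, x < k := fun x hx => h2 x (by simp [hx])
        obtain ⟨ps, p1, p2, p3, p4, p5⟩ := ih (k + 1) st h1.2 (by
          intro x hx
          have := hst x hx
          omega) (by
          intro i
          have := h3 (i + 1)
          rw [List.take_succ_cons, List.count_cons, List.count_cons] at this
          simp at this ⊢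
          omega) (by
          rw [List.count_cons, List.count_cons] at h4
          simp at h4 ⊢
          omega)
        have hf : ∀ x, x ∈ ps.map Prod.fst → x ∈ st ∨ k + 1 ≤ x := by
          intro x hx
          rcases (p3 x).1 hx with h | ⟨j, -, rfl⟩
          · exact Or.inl h
          · exact Or.inr (by omega)
        have hg : ∀ x, x ∈ ps.map Prod.snd → k + 1 ≤ x := by
          intro x hx
          obtain ⟨j, -, rfl⟩ := (p4 x).1 hx
          omega
        rw [List.nodup_append] at p2
        obtain ⟨n1, n2, n3⟩ := p2
        refine ⟨(s, k) :: ps, ?_, ?_, ?_, ?_, ?_⟩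
        · intro p hp
          rw [List.mem_cons] at hp
          rw [List.length_cons]
          rcases hp with rfl | hp
          · exact ⟨hs, by show k < _; omega⟩
          · have := p1 p hp
            omega
        · rw [List.map_cons, List.map_cons, List.nodup_append]
          refine ⟨?_, ?_, ?_⟩
          · rw [List.nodup_cons]
            refine ⟨fun h => ?_, n1⟩
            rcases hf _ h with h | h
            · exact h1.1 h
            · have : k + 1 ≤ s := h
              omega
          · rw [List.nodup_cons]
            refine ⟨fun h => ?_, n2⟩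
            have : k + 1 ≤ k := hg _ h
            omega
          · intro a ha b hb hab
            rw [List.mem_cons] at ha hb
            rcases ha with ha | ha
            · have ha' : a = s := ha
              rcases hb with hb | hb
              · have hb' : b = k := hb
                omega
              · have := hg b hb
                omega
            · rcases hb with hb | hb
              · have hb' : b = k := hb
                rcases hf a ha with h | h
                · have := hst a h
                  omega
                · omega
              · exact n3 a ha b hb hab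
        · intro x
          rw [List.map_cons, List.mem_cons, p3 x, List.mem_cons]
          constructor
          · rintro (rfl | hx | ⟨j, hj, rfl⟩)
            · exact Or.inl (Or.inl rfl)
            · exact Or.inl (Or.inr hx)
            · exact Or.inr ⟨j + 1, by simpa using hj, by ring⟩
          · rintro ((rfl | hx) | ⟨j, hj, rfl⟩)
            · exact Or.inl rfl
            · exact Or.inr (Or.inl hx)
            · cases j with
              | zero => simp at hj
              | succ j => exact Or.inr (Or.inr ⟨j, by simpa using hj, by ring⟩)
        · intro x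
          rw [List.map_cons, List.mem_cons, p4 x]
          constructor
          · rintro (rfl | ⟨j, hj, rfl⟩)
            · exact ⟨0, by simp, by simp⟩
            · exact ⟨j + 1, by simpa using hj, by ring⟩
          · rintro ⟨j, hj, rfl⟩
            cases j with
            | zero => exact Or.inl (by simp)
            | succ j => exact Or.inr ⟨j, by simpa using hj, by ring⟩
        · rw [List.length_cons, p5]; simp

/-- The pairs of matched steps of a Dyck word. -/
theorem exists_frame (h : ℕ) (w : DyckWord) (hw : w.semilength = h) :
    ∃ e : Fin h × Bool → ℕ, Function.Injective e ∧ (∀ k, e k < 2 * h) ∧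
      (∀ i, e (i, false) < e (i, true)) ∧
      ∀ x, (∃ i, e (i, false) = x) ↔ w.toList[x]? = some U := by
  have hc := w.count_U_eq_count_D
  have hlen := w.two_mul_semilength_eq_length
  have hD := w.semilength_eq_count_D
  obtain ⟨ps, p1, p2, p3, p4, p5⟩ := stack_matching w.toList 0 [] (by simp) (by simp)
    (fun i => by simpa using w.count_D_le_count_U i) (by simpa using hc.symm)
  have hps : ps.length = h := by rw [p5, ← hD, hw]
  rw [List.nodup_append] at p2
  obtain ⟨n1, n2, n3⟩ := p2
  subst hps
  have hm1 : ∀ i : Fin ps.length, (ps[(i : ℕ)]).1 ∈ ps.map Prod.fst := fun i =>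
    List.mem_map_of_mem (List.getElem_mem i.2)
  have hm2 : ∀ i : Fin ps.length, (ps[(i : ℕ)]).2 ∈ ps.map Prod.snd := fun i =>
    List.mem_map_of_mem (List.getElem_mem i.2)
  have hi1 : ∀ i j : Fin ps.length, (ps[(i : ℕ)]).1 = (ps[(j : ℕ)]).1 → i = j := by
    intro i j hij
    have h1 : (ps.map Prod.fst)[(i : ℕ)]'(by simp) = (ps.map Prod.fst)[(j : ℕ)]'(by simp) := by
      rw [List.getElem_map, List.getElem_map]
      exact hij
    exact Fin.ext ((n1.getElem_inj_iff).1 h1)
  have hi2 : ∀ i j : Fin ps.length, (ps[(i : ℕ)]).2 = (ps[(j : ℕ)]).2 → i = j := by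
    intro i j hij
    have h1 : (ps.map Prod.snd)[(i : ℕ)]'(by simp) = (ps.map Prod.snd)[(j : ℕ)]'(by simp) := by
      rw [List.getElem_map, List.getElem_map]
      exact hij
    exact Fin.ext ((n2.getElem_inj_iff).1 h1)
  refine ⟨fun k => if k.2 then (ps[(k.1 : ℕ)]).2 else (ps[(k.1 : ℕ)]).1, ?_, ?_, ?_, ?_⟩
  · rintro ⟨i, b⟩ ⟨j, c⟩ hij
    cases b <;> cases c
    · have h2 := hi1 i j (by simpa using hij)
      rw [h2]
    · exact absurd (by simpa using hij) (n3 _ (hm1 i) _ (hm2 j))
    · exact absurd (by simpa using hij.symm) (n3 _ (hm1 j) _ (hm2 i))
    · have h2 := hi2 i j (by simpa using hij)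
      rw [h2]
  · rintro ⟨i, b⟩
    have h1 := p1 _ (List.getElem_mem i.2)
    have h2 : w.toList.length = 2 * ps.length := by rw [← hlen, hw]
    rw [h2] at h1
    cases b
    · simp only [Bool.false_eq_true, if_false]
      omega
    · simp only [if_true]
      omega
  · intro i
    have h1 := p1 _ (List.getElem_mem i.2)
    simpa using h1.1
  · intro x
    have h1 := p3 x
    simp only [List.not_mem_nil, false_or, zero_add] at h1
    constructor
    · rintro ⟨i, hi⟩
      simp only [Bool.false_eq_true, if_false] at hi
      obtain ⟨j, hj, hx⟩ := h1.1 (hi ▸ hm1 i)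
      rw [hx]
      exact hj
    · intro hx
      have h2 := h1.2 ⟨x, hx, rfl⟩
      rw [List.mem_map] at h2
      obtain ⟨p, hp, rfl⟩ := h2
      obtain ⟨i, hi, rfl⟩ := List.mem_iff_getElem.1 hp
      exact ⟨⟨i, hi⟩, by simp⟩

theorem dyck_ext {h : ℕ} (w w' : DyckWord) (hw : w.semilength = h) (hw' : w'.semilength = h)
    (hU : ∀ x : ℕ, w.toList[x]? = some U ↔ w'.toList[x]? = some U) : w = w' := by
  have h1 := w.two_mul_semilength_eq_length
  have h2 := w'.two_mul_semilength_eq_length
  ext1
  refine List.ext_getElem? fun x => ?_
  by_cases hx : x < 2 * h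
  · have h3 : x < w.toList.length := by omega
    have h4 : x < w'.toList.length := by omega
    have h5 := hU x
    rw [List.getElem?_eq_getElem h3, List.getElem?_eq_getElem h4] at h5 ⊢
    rcases DyckStep.dichotomy (w.toList[x]) with h6 | h6 <;>
      rcases DyckStep.dichotomy (w'.toList[x]) with h7 | h7 <;> simp [h6, h7] at h5 ⊢
  · rw [List.getElem?_eq_none (by omega), List.getElem?_eq_none (by omega)]

/-- If every pair of the frame `e` meets the lower ends of `e'`, then these are the lower ends
of `e`, or their sum is larger. -/
theorem frame_offdiag {h : ℕ} (e e' : Fin h × Bool → ℕ) (he : Function.Injective e)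
    (hlt : ∀ i, e (i, false) < e (i, true))
    (hs : ∑ j, e' (j, false) ≤ ∑ i, e (i, false))
    (hall : ∀ i, ∃ b j, e (i, b) = e' (j, false)) :
    ∀ x, (∃ i, e (i, false) = x) ↔ ∃ j, e' (j, false) = x := by
  choose b j hbj using hall
  have hinj : Function.Injective j := by
    intro i i' hii
    have h1 : e (i, b i) = e (i', b i') := by rw [hbj i, hbj i', hii]
    exact congrArg Prod.fst (he h1)
  have hbij : Function.Bijective j := Finite.injective_iff_bijective.1 hinj
  have hsum : ∑ i, e (i, b i) = ∑ k, e' (k, false) := by
    simp only [hbj]
    exact hbij.sum_comp (fun k => e' (k, false))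
  have hle : ∀ i, e (i, false) ≤ e (i, b i) := by
    intro i
    cases hb : b i
    · exact le_rfl
    · exact (hlt i).le
  have hb : ∀ i, b i = false := by
    intro i
    by_contra hbi
    have h1 : b i = true := by simpa using hbi
    have h2 : ∑ i, e (i, false) < ∑ i, e (i, b i) :=
      Finset.sum_lt_sum (fun i _ => hle i) ⟨i, Finset.mem_univ i, by rw [h1]; exact hlt i⟩
    omega
  intro x
  constructor
  · rintro ⟨i, rfl⟩
    exact ⟨j i, by rw [← hbj i, hb i]⟩
  · rintro ⟨k, rfl⟩
    obtain ⟨i, rfl⟩ := hbij.surjective k
    exact ⟨i, by rw [← hbj i, hb i]⟩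

end Pool.Agent.WalkProg43
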