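import Pool.Agent.WalkProg43.Defs

namespace Pool.Agent.WalkProg43

open SimpleGraph

variable {n : ℕ} {v : Fin n} {F : Type} [Field F]

theorem value_transfer (P : WalkProgram n v F) {G H : SimpleGraph (Fin n)} :
    ∀ {a : Fin n} (t : ℕ) (p : G.Walk a v) (hp : ∀ e, e ∈ p.edges → e ∈ H.edgeSet),
      P.value t (p.transfer H hp) = P.value t p
  | _, _, .nil, _ => by simp [WalkProgram.value]
  | _, t, .cons _ p, hp => by
      simp only [Walk.transfer, WalkProgram.value]
      rw [value_transfer P (t + 1) p]

theorem weight_transfer (P : WalkProgram n v F) {G H : SimpleGraph (Fin n)} (p : G.Walk v v)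
    (hp : ∀ e, e ∈ p.edges → e ∈ H.edgeSet) : P.weight (p.transfer H hp) = P.weight p := by
  simp [WalkProgram.weight, value_transfer]

/-- Splitting a walk: the prefix gives a row vector of length `nodes m u`. -/
theorem exists_row (P : WalkProgram n v F) {G : SimpleGraph (Fin n)} {a u : Fin n}
    (p : G.Walk a u) : ∀ (t m : ℕ) (x : Fin (P.nodes t a) → F), m = t + p.length →
      ∃ r : Fin (P.nodes m u) → F, ∀ q : G.Walk u v,
        dotProduct x (P.value t (p.append q)) = dotProduct r (P.value m q) := by
  induction p with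
  | nil =>
    intro t m x hm
    simp only [Walk.length_nil, add_zero] at hm
    subst hm
    exact ⟨x, fun q => by simp⟩
  | cons h p ih =>
    intro t m x hm
    obtain ⟨r, hr⟩ := ih (t + 1) m (Matrix.vecMul x (P.step t _ _)) (by
      rw [hm, Walk.length_cons]; ring)
    refine ⟨r, fun q => ?_⟩
    rw [← hr q, Walk.cons_append]
    simp only [WalkProgram.value]
    rw [Matrix.dotProduct_mulVec]

/-- Vectors `r i` in `F^d` with a biorthogonal family of vectors: their number is at most `d`. -/
theorem card_le_of_biorth {ι : Type*} [Fintype ι] {d : ℕ} (r c : ι → (Fin d → F))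
    (h1 : ∀ i, dotProduct (r i) (c i) ≠ 0) (h2 : ∀ i j, i ≠ j → dotProduct (r i) (c j) = 0) :
    Fintype.card ι ≤ d := by
  classical
  have hli : LinearIndependent F r := by
    rw [Fintype.linearIndependent_iff]
    intro g hg j
    have h := congrArg (fun x => dotProduct x (c j)) hg
    simp only [sum_dotProduct, smul_dotProduct, zero_dotProduct] at h
    rw [Finset.sum_eq_single j] at h
    · simpa [h1 j] using h
    · intro i _ hij
      simp [h2 i j hij]
    · intro hj
      exact absurd (Finset.mem_univ j) hj
  have := hli.fintype_card_le_finrank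
  simpa using this

open Classical in
/-- The closed walks of length at most `n` from `v` in `G`. -/
noncomputable def walksLE (G : SimpleGraph (Fin n)) (v : Fin n) : Finset (G.Walk v v) :=
  G.finsetWalkLengthLT (n + 1) v v

theorem mem_walksLE {G : SimpleGraph (Fin n)} {p : G.Walk v v} :
    p ∈ walksLE G v ↔ p.length ≤ n := by
  classical
  unfold walksLE
  rw [mem_finsetWalkLengthLT_iff]
  omega

theorem output_eq (P : WalkProgram n v F) (G : SimpleGraph (Fin n)) :
    P.output G = ∑ p ∈ walksLE G v, P.weight p := rfl

/-- The closed walks of length at most `n` in the complete graph. -/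
noncomputable def allWalks (n : ℕ) (v : Fin n) :
    Finset ((⊤ : SimpleGraph (Fin n)).Walk v v) := walksLE ⊤ v

theorem mem_allWalks {p : (⊤ : SimpleGraph (Fin n)).Walk v v} :
    p ∈ allWalks n v ↔ p.length ≤ n := mem_walksLE

open Classical in
/-- The edge sets of the cycles through `v` of the complete graph. -/
noncomputable def allCycles (n : ℕ) (v : Fin n) : Finset (Finset (Sym2 (Fin n))) :=
  Finset.univ.filter fun C => ∃ p : (⊤ : SimpleGraph (Fin n)).Walk v v,
    p.IsCycle ∧ p.edges.toFinset = C

theorem mem_edgeSet_fromEdgeSet {E : Finset (Sym2 (Fin n))}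
    {a b : Fin n} {p : (⊤ : SimpleGraph (Fin n)).Walk a b} (h : p.edges.toFinset ⊆ E) :
    ∀ e, e ∈ p.edges → e ∈ (fromEdgeSet (E : Set (Sym2 (Fin n)))).edgeSet := by
  intro e he
  have h1 : e ∈ E := h (List.mem_toFinset.2 he)
  have h2 := p.edges_subset_edgeSet he
  rw [edgeSet_fromEdgeSet]
  refine ⟨by simpa using h1, ?_⟩
  revert h2
  induction e with
  | _ x y => simp

theorem edges_subset_of_fromEdgeSet {E : Finset (Sym2 (Fin n))}
    {a b : Fin n} (p : (fromEdgeSet (E : Set (Sym2 (Fin n)))).Walk a b) :
    p.edges.toFinset ⊆ E := by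
  intro e he
  have := p.edges_subset_edgeSet (List.mem_toFinset.1 he)
  rw [edgeSet_fromEdgeSet] at this
  simpa using this.1

theorem output_fromEdgeSet (P : WalkProgram n v F) (E : Finset (Sym2 (Fin n))) :
    P.output (fromEdgeSet (E : Set (Sym2 (Fin n)))) =
      ∑ p ∈ (allWalks n v).filter (fun p => p.edges.toFinset ⊆ E), P.weight p := by
  classical
  rw [output_eq]
  refine Finset.sum_bij' (fun p _ => p.transfer ⊤ (by
      intro e he
      have := p.edges_subset_edgeSet he
      exact edgeSet_mono le_top this))
    (fun p hp => p.transfer _ (mem_edgeSet_fromEdgeSet (Finset.mem_filter.1 hp).2)) ?_ ?_ ?_ ?_ ?_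
  · intro p hp
    rw [mem_walksLE] at hp
    rw [Finset.mem_filter, mem_allWalks]
    refine ⟨by rw [Walk.length_transfer]; omega, ?_⟩
    rw [Walk.edges_transfer]
    exact edges_subset_of_fromEdgeSet p
  · intro p hp
    rw [Finset.mem_filter, mem_allWalks] at hp
    rw [mem_walksLE, Walk.length_transfer]
    omega
  · intro p hp
    rw [Walk.transfer_transfer, Walk.transfer_self]
  · intro p hp
    rw [Walk.transfer_transfer, Walk.transfer_self]
  · intro p hp
    rw [weight_transfer]

theorem cycleCount_fromEdgeSet (E : Finset (Sym2 (Fin n))) :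
    cycleCount (fromEdgeSet (E : Set (Sym2 (Fin n)))) v =
      ((allCycles n v).filter (fun C => C ⊆ E)).card := by
  classical
  unfold cycleCount
  rw [← Set.ncard_coe_finset]
  congr 1
  ext C
  simp only [Set.mem_ofPred_eq, Finset.coe_filter, allCycles, Finset.mem_filter, Finset.mem_univ,
    true_and]
  constructor
  · rintro ⟨p, hp, rfl⟩
    have hp' : ∀ e, e ∈ p.edges → e ∈ (⊤ : SimpleGraph (Fin n)).edgeSet := by
      intro e he
      exact edgeSet_mono le_top (p.edges_subset_edgeSet he)
    exact ⟨⟨p.transfer ⊤ hp', hp.transfer _, by rw [Walk.edges_transfer]⟩,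
      edges_subset_of_fromEdgeSet p⟩
  · rintro ⟨⟨p, hp, rfl⟩, hE⟩
    exact ⟨p.transfer _ (mem_edgeSet_fromEdgeSet hE), hp.transfer _, by rw [Walk.edges_transfer]⟩

theorem powerset_inj {α : Type*} [DecidableEq α] {M : Type*} [AddCommGroup M]
    (a b : Finset α → M)
    (h : ∀ E : Finset α, ∑ E' ∈ E.powerset, a E' = ∑ E' ∈ E.powerset, b E') : a = b := by
  funext E
  induction E using Finset.strongInduction with
  | _ E ih =>
    have h0 := h E
    have hE : E ∈ E.powerset := Finset.mem_powerset_self E
    rw [← Finset.add_sum_erase _ _ hE, ← Finset.add_sum_erase _ _ hE] at h0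
    have : ∑ x ∈ E.powerset.erase E, a x = ∑ x ∈ E.powerset.erase E, b x := by
      refine Finset.sum_congr rfl fun x hx => ih x ?_
      rw [Finset.mem_erase, Finset.mem_powerset] at hx
      exact Finset.ssubset_iff_subset_ne.2 ⟨hx.2, hx.1⟩
    rw [this] at h0
    exact add_right_cancel h0

open Classical in
/-- Inclusion-exclusion over the subgraphs: for each edge set `E` the coefficients of the closed
walks with edge set exactly `E` add up to `1` or `0`. -/
theorem fiber_sum (P : WalkProgram n v F)
    (hcount : ∀ G : SimpleGraph (Fin n), P.output G = (cycleCount G v : F))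
    (E : Finset (Sym2 (Fin n))) :
    ∑ p ∈ (allWalks n v).filter (fun p => p.edges.toFinset = E), P.weight p =
      if E ∈ allCycles n v then 1 else 0 := by
  have key : (fun E : Finset (Sym2 (Fin n)) =>
      ∑ p ∈ (allWalks n v).filter (fun p => p.edges.toFinset = E), P.weight p) =
      fun E => if E ∈ allCycles n v then (1 : F) else 0 := by
    refine powerset_inj _ _ ?_
    intro E
    have h1 := hcount (fromEdgeSet (E : Set (Sym2 (Fin n))))
    rw [output_fromEdgeSet, cycleCount_fromEdgeSet] at h1
    have h2 : ∑ E' ∈ E.powerset, ∑ p ∈ (allWalks n v).filter (fun p => p.edges.toFinset = E'),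
        P.weight p = ∑ p ∈ (allWalks n v).filter (fun p => p.edges.toFinset ⊆ E), P.weight p := by
      rw [← Finset.sum_fiberwise_of_maps_to (s := (allWalks n v).filter
        (fun p => p.edges.toFinset ⊆ E)) (t := E.powerset)
        (g := fun p => p.edges.toFinset) (fun p hp => by
          rw [Finset.mem_powerset]; exact (Finset.mem_filter.1 hp).2)]
      refine Finset.sum_congr rfl fun E' hE' => ?_
      rw [Finset.filter_filter]
      refine Finset.sum_congr ?_ fun _ _ => rfl
      ext p
      simp only [Finset.mem_filter]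
      rw [Finset.mem_powerset] at hE'
      constructor
      · rintro ⟨h, rfl⟩
        exact ⟨h, hE', rfl⟩
      · rintro ⟨h, _, h3⟩
        exact ⟨h, h3⟩
    rw [h2, h1]
    rw [Finset.sum_ite, Finset.sum_const_zero, add_zero, Finset.sum_const, nsmul_eq_mul, mul_one]
    congr 2
    ext C
    simp only [Finset.mem_filter, Finset.mem_powerset]
    tauto
  exact congrFun key E

end Pool.Agent.WalkProg43
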