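import Mathlib

/-!
Branching programs over the closed walks from a vertex `v` of the graphs on `Fin n`.
-/

namespace Pool.Agent.WalkProg43

open SimpleGraph

/-- A branching program over walks, with coefficients in a field `F`.  At time `t` it has
`nodes t a` nodes labelled by the vertex `a`; `start` gives the initial weights of the nodes at
time `0` labelled `v`, `step t a b i j` is the coefficient of the arc from the `i`-th node
`(t, a)` to the `j`-th node `(t + 1, b)`, and `out t` are the output weights of the nodes labelled
`v` at time `t`. -/
structure WalkProgram (n : ℕ) (v : Fin n) (F : Type) [Field F] where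
  /-- number of nodes at time `t` with label `a` -/
  nodes : ℕ → Fin n → ℕ
  /-- initial weights -/
  start : Fin (nodes 0 v) → F
  /-- coefficients of the arcs -/
  step : ∀ (t : ℕ) (a b : Fin n), Matrix (Fin (nodes t a)) (Fin (nodes (t + 1) b)) F
  /-- output weights -/
  out : ∀ t : ℕ, Fin (nodes t v) → F

variable {n : ℕ} {v : Fin n} {F : Type} [Field F]

/-- For a walk `p` from `a` to `v`: the vector of the sums of the products of the coefficients
over the paths of the program that start in a given node `(t, a)` and follow `p`. -/
def WalkProgram.value (P : WalkProgram n v F) {G : SimpleGraph (Fin n)} :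
    ∀ {a : Fin n} (t : ℕ), G.Walk a v → (Fin (P.nodes t a) → F)
  | _, t, .nil => P.out t
  | a, t, .cons (v := b) _ p => (P.step t a b).mulVec (P.value (t + 1) p)

/-- The coefficient which the program gives to the closed walk `p` from `v`. -/
def WalkProgram.weight (P : WalkProgram n v F) {G : SimpleGraph (Fin n)} (p : G.Walk v v) : F :=
  dotProduct P.start (P.value 0 p)

open Classical in
/-- The output of the program on the graph `G`: the sum of the coefficients of the closed walks
of length at most `n` from `v` in `G`. -/
noncomputable def WalkProgram.output (P : WalkProgram n v F) (G : SimpleGraph (Fin n)) : F :=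
  ∑ p ∈ G.finsetWalkLengthLT (n + 1) v v, P.weight p

/-- The number of cycles of `G` through `v` (cycles as edge sets). -/
noncomputable def cycleCount (G : SimpleGraph (Fin n)) (v : Fin n) : ℕ :=
  {E : Finset (Sym2 (Fin n)) | ∃ p : G.Walk v v, p.IsCycle ∧ p.edges.toFinset = E}.ncard

/-- The coefficient of a closed walk depends on the multiset of its edges only. -/
def WalkProgram.EdgeSymmetric (P : WalkProgram n v F) : Prop :=
  ∀ p q : (⊤ : SimpleGraph (Fin n)).Walk v v, p.edges.Perm q.edges → P.weight p = P.weight q

/-- The number of nodes at the times `1, …, n - 1` with labels different from `v`. -/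
def WalkProgram.size (P : WalkProgram n v F) : ℕ :=
  ∑ t ∈ Finset.Icc 1 (n - 1), ∑ a ∈ Finset.univ.erase v, P.nodes t a

end Pool.Agent.WalkProg43
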