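import Pool.Agent.WalkProg43.Basic

namespace Pool.Agent.WalkProg43

open SimpleGraph

variable {n : ℕ}

/-- The level of a vertex: `v` is at the bottom, `u` at the top. -/
def lev (v u x : Fin n) : ℕ := if x = v then 0 else if x = u then n + 1 else x.val + 1

theorem lev_injective (v u : Fin n) : Function.Injective (lev v u) := by
  intro x y h
  have hx := x.isLt
  have hy := y.isLt
  unfold lev at h
  split_ifs at h with h1 h2 h3 h4 h5 h6 h7 h8
  all_goals omega

/-- Does the edge cross the cut `f ≤ c`? -/
def cr (f : Fin n → ℕ) (c : ℕ) : Sym2 (Fin n) → Bool :=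
  Sym2.lift ⟨fun x y => (decide (f x ≤ c)) != (decide (f y ≤ c)), by
    intro x y
    exact bne_comm⟩

@[simp] theorem cr_mk (f : Fin n → ℕ) (c : ℕ) (x y : Fin n) :
    cr f c s(x, y) = ((decide (f x ≤ c)) != (decide (f y ≤ c))) := rfl

theorem parity (f : Fin n → ℕ) (c : ℕ) {G : SimpleGraph (Fin n)} {a b : Fin n}
    (p : G.Walk a b) :
    (p.edges.countP (cr f c)) % 2 = if (decide (f a ≤ c)) = (decide (f b ≤ c)) then 0 else 1 := by
  induction p with
  | nil => simp
  | @cons a b' b h p ih =>
    rw [Walk.edges_cons, List.countP_cons, cr_mk]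
    by_cases h1 : f a ≤ c <;> by_cases h2 : f b' ≤ c <;> by_cases h3 : f b ≤ c <;>
      simp [h1, h2, h3] at ih ⊢ <;> omega

theorem mono_zero (f : Fin n → ℕ) (c : ℕ) {G : SimpleGraph (Fin n)} {a b : Fin n}
    (p : G.Walk a b) (hp : p.support.Pairwise (fun x y => f x < f y)) (ha : c < f a) :
    p.edges.countP (cr f c) = 0 := by
  induction p with
  | nil => simp
  | @cons a b' b h p ih =>
    rw [Walk.support_cons, List.pairwise_cons] at hp
    have hb : f a < f b' := hp.1 b' p.start_mem_support
    rw [Walk.edges_cons, List.countP_cons, cr_mk, ih hp.2 (ha.trans hb)]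
    have h1 : ¬ f a ≤ c := by omega
    have h2 : ¬ f b' ≤ c := by omega
    simp [h1, h2]

theorem mono_le_one (f : Fin n → ℕ) (c : ℕ) {G : SimpleGraph (Fin n)} {a b : Fin n}
    (p : G.Walk a b) (hp : p.support.Pairwise (fun x y => f x < f y)) :
    p.edges.countP (cr f c) ≤ 1 := by
  induction p with
  | nil => simp
  | @cons a b' b h p ih =>
    rw [Walk.support_cons, List.pairwise_cons] at hp
    have hb : f a < f b' := hp.1 b' p.start_mem_support
    rw [Walk.edges_cons, List.countP_cons, cr_mk]
    by_cases h2 : f b' ≤ c
    · have h1 : f a ≤ c := by omega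
      simpa [h1, h2] using ih hp.2
    · rw [mono_zero f c p hp.2 (by omega)]
      split_ifs <;> omega

theorem eq_of_countP_le_one {α : Type*} {q : α → Bool} {l : List α} (h : l.countP q ≤ 1)
    {e e' : α} (he : e ∈ l) (he' : e' ∈ l) (hq : q e = true) (hq' : q e' = true) : e = e' := by
  rw [List.countP_eq_length_filter] at h
  have h1 : e ∈ l.filter q := List.mem_filter.2 ⟨he, hq⟩
  have h2 : e' ∈ l.filter q := List.mem_filter.2 ⟨he', hq'⟩
  match hl : l.filter q with
  | [] => rw [hl] at h1; simp at h1
  | [a] =>
    rw [hl] at h1 h2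
    simp only [List.mem_singleton] at h1 h2
    rw [h1, h2]
  | a :: b :: t => rw [hl] at h; simp at h

theorem isPath_of_mono (f : Fin n → ℕ) {G : SimpleGraph (Fin n)} {a b : Fin n}
    (p : G.Walk a b) (hp : p.support.Pairwise (fun x y => f x < f y)) : p.IsPath := by
  refine Walk.IsPath.mk' ?_
  refine hp.imp ?_
  intro x y h hxy
  rw [hxy] at h
  exact lt_irrefl _ h

/-- A closed walk which covers the edges of two monotone paths traverses each common edge at
least twice. -/
theorem count_le (f : Fin n → ℕ) (hf : Function.Injective f) {G : SimpleGraph (Fin n)}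
    {v u : Fin n} (U D : G.Walk v u) (hU : U.support.Pairwise (fun x y => f x < f y))
    (hD : D.support.Pairwise (fun x y => f x < f y)) {w : Fin n} (p : G.Walk w w)
    (hp : p.edges.toFinset = (U.edges ++ D.edges).toFinset) (e : Sym2 (Fin n)) :
    (U.edges ++ D.edges).count e ≤ p.edges.count e := by
  have hmem : ∀ e', e' ∈ p.edges ↔ e' ∈ U.edges ∨ e' ∈ D.edges := by
    intro e'
    rw [← List.mem_toFinset, hp, List.mem_toFinset, List.mem_append]
  have hU1 : U.edges.count e ≤ 1 :=
    List.nodup_iff_count_le_one.1 (isPath_of_mono f U hU).isTrail.edges_nodup e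
  have hD1 : D.edges.count e ≤ 1 :=
    List.nodup_iff_count_le_one.1 (isPath_of_mono f D hD).isTrail.edges_nodup e
  rw [List.count_append]
  by_cases h1 : e ∈ U.edges
  · by_cases h2 : e ∈ D.edges
    · have hpe : e ∈ p.edges := (hmem e).2 (Or.inl h1)
      have hge : 1 ≤ p.edges.count e := List.one_le_count_iff.2 hpe
      -- choose the lower end
      obtain ⟨c, hc⟩ : ∃ c, cr f c e = true := by
        have hadj := U.edges_subset_edgeSet h1
        revert hadj
        induction e with
        | _ x y =>
          intro hadj
          have hxy : x ≠ y := (G.mem_edgeSet.1 hadj).ne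
          rcases lt_or_gt_of_ne (fun h => hxy (hf h)) with h | h
          · refine ⟨f x, ?_⟩
            rw [cr_mk]
            have : ¬ f y ≤ f x := by omega
            simp [this]
          · refine ⟨f y, ?_⟩
            rw [cr_mk]
            have : ¬ f x ≤ f y := by omega
            simp [this]
      have hpar := parity f c p
      rw [if_pos rfl] at hpar
      have hcount : p.edges.countP (cr f c) = p.edges.count e := by
        rw [List.count]
        refine List.countP_congr ?_
        intro e' he'
        rw [beq_iff_eq]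
        constructor
        · intro hq
          rcases (hmem e').1 he' with h | h
          · exact eq_of_countP_le_one (mono_le_one f c U hU) h h1 hq hc
          · exact eq_of_countP_le_one (mono_le_one f c D hD) h h2 hq hc
        · rintro rfl
          exact hc
      rw [hcount] at hpar
      omega
    · have : D.edges.count e = 0 := List.count_eq_zero.2 h2
      have hge : 1 ≤ p.edges.count e := List.one_le_count_iff.2 ((hmem e).2 (Or.inl h1))
      omega
  · have h0 : U.edges.count e = 0 := List.count_eq_zero.2 h1
    by_cases h2 : e ∈ D.edges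
    · have hge : 1 ≤ p.edges.count e := List.one_le_count_iff.2 ((hmem e).2 (Or.inr h2))
      omega
    · have : D.edges.count e = 0 := List.count_eq_zero.2 h2
      omega

/-- A walk in the complete graph with given interior vertices. -/
theorem exists_walk (l : List (Fin n)) : ∀ (a b : Fin n),
    (a :: (l ++ [b])).Pairwise (· ≠ ·) →
      ∃ p : (⊤ : SimpleGraph (Fin n)).Walk a b, p.support = a :: (l ++ [b]) := by
  induction l with
  | nil =>
    intro a b h
    have hab : a ≠ b := by simpa using h
    exact ⟨Walk.cons (by simpa using hab) Walk.nil, by simp⟩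
  | cons c l ih =>
    intro a b h
    rw [List.cons_append, List.pairwise_cons] at h
    obtain ⟨p, hp⟩ := ih c b h.2
    have hac : a ≠ c := h.1 c (by simp)
    exact ⟨Walk.cons (by simpa using hac) p, by simp [hp]⟩

/-- The monotone path from `v` to `u` through the set `S`. -/
theorem exists_up {v u : Fin n} (huv : u ≠ v) (S : Finset (Fin n)) (hv : v ∉ S) (hu : u ∉ S) :
    ∃ p : (⊤ : SimpleGraph (Fin n)).Walk v u,
      p.support.Pairwise (fun x y => lev v u x < lev v u y) ∧
        (∀ x, x ∈ p.support ↔ x = v ∨ x ∈ S ∨ x = u) ∧ p.length = S.card + 1 := by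
  have hlS : ∀ x ∈ S, lev v u x = x.val + 1 := by
    intro x hx
    unfold lev
    rw [if_neg (fun h : x = v => hv (h ▸ hx)), if_neg (fun h : x = u => hu (h ▸ hx))]
  have hlv : lev v u v = 0 := by simp [lev]
  have hlu : lev v u u = n + 1 := by simp [lev, huv]
  have hpw : (v :: (S.sort (· ≤ ·) ++ [u])).Pairwise (fun x y => lev v u x < lev v u y) := by
    rw [List.pairwise_cons, List.pairwise_append]
    refine ⟨?_, ?_, by simp, ?_⟩
    · intro x hx
      rw [List.mem_append, Finset.mem_sort, List.mem_singleton] at hx
      rw [hlv]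
      rcases hx with hx | hx
      · rw [hlS x hx]; omega
      · rw [hx, hlu]; omega
    · have h := (S.sortedLT_sort).pairwise
      refine List.Pairwise.imp_of_mem ?_ h
      intro x y hx hy hxy
      rw [Finset.mem_sort] at hx hy
      rw [hlS x hx, hlS y hy]
      have : x.val < y.val := hxy
      omega
    · intro x hx y hy
      rw [Finset.mem_sort] at hx
      rw [List.mem_singleton] at hy
      rw [hlS x hx, hy, hlu]
      have := x.isLt
      omega
  obtain ⟨p, hp⟩ := exists_walk (S.sort (· ≤ ·)) v u (by
    refine hpw.imp ?_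
    intro x y h hxy
    rw [hxy] at h
    exact lt_irrefl _ h)
  refine ⟨p, by rw [hp]; exact hpw, ?_, ?_⟩
  · intro x
    rw [hp]
    simp
  · have := p.length_support
    rw [hp] at this
    simp at this
    omega

end Pool.Agent.WalkProg43
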