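import Pool.Agent.WalkProg43.Count
import Pool.Agent.WalkProg43.Paths

/-! The number of closed walks with the edges of two monotone paths divides a power of two. -/

namespace Pool.Agent.WalkProg43

open SimpleGraph

variable {n : ℕ}

theorem mono_of_le_one (f : Fin n → ℕ) (hf : Function.Injective f) {G : SimpleGraph (Fin n)}
    {a u : Fin n} (p : G.Walk a u) (hu : ∀ x, f x ≤ f u)
    (hp : ∀ c, p.edges.countP (cr f c) ≤ 1) : p.support.Pairwise (fun x y => f x < f y) := by
  induction p with
  | nil => simp
  | @cons a b u h p ih =>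
    have hp' : ∀ c, p.edges.countP (cr f c) ≤ 1 := fun c => by
      have := hp c
      rw [Walk.edges_cons, List.countP_cons] at this
      omega
    have ih' := ih hu hp'
    have hab : f a < f b := by
      rcases lt_trichotomy (f a) (f b) with h1 | h1 | h1
      · exact h1
      · exact absurd (hf h1) h.ne
      · exfalso
        have h2 := hp (f b)
        rw [Walk.edges_cons, List.countP_cons, cr_mk] at h2
        have h3 := parity f (f b) p
        generalize p.edges.countP (cr f (f b)) = k at h2 h3
        have h4 : f a ≤ f u := hu a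
        have h5 : ¬ f a ≤ f b := by omega
        have h6 : ¬ f u ≤ f b := by omega
        simp [h5, h6] at h2 h3
        omega
    rw [Walk.support_cons, List.pairwise_cons]
    refine ⟨fun x hx => ?_, ih'⟩
    have h7 := ih'
    rw [p.support_eq_cons, List.pairwise_cons] at h7
    rw [p.support_eq_cons, List.mem_cons] at hx
    rcases hx with rfl | hx
    · exact hab
    · exact hab.trans (h7.1 x hx)

/-- `x` and `y` are consecutive among the vertices with the property `A`. -/
def Con (f : Fin n → ℕ) (A : Fin n → Prop) (x y : Fin n) : Prop :=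
  A x ∧ A y ∧ f x < f y ∧ ∀ z, A z → ¬ (f x < f z ∧ f z < f y)

theorem mem_edges_iff (f : Fin n → ℕ) (hf : Function.Injective f) {G : SimpleGraph (Fin n)}
    {a b : Fin n} (p : G.Walk a b) (hp : p.support.Pairwise (fun x y => f x < f y))
    {x y : Fin n} (hxy : f x < f y) :
    s(x, y) ∈ p.edges ↔ Con f (fun z => z ∈ p.support) x y := by
  induction p with
  | nil =>
    unfold Con
    simp only [Walk.edges_nil, List.not_mem_nil, Walk.support_nil, List.mem_singleton, false_iff]
    rintro ⟨rfl, rfl, h, -⟩
    exact lt_irrefl _ h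
  | @cons a b' b h p ih =>
    rw [Walk.support_cons, List.pairwise_cons] at hp
    have ih' := ih hp.2
    have hab : f a < f b' := hp.1 b' p.start_mem_support
    have hmin : ∀ z, z ∈ p.support → f b' ≤ f z := by
      intro z hz
      have h7 := hp.2
      rw [p.support_eq_cons, List.pairwise_cons] at h7
      rw [p.support_eq_cons, List.mem_cons] at hz
      rcases hz with rfl | hz
      · exact le_rfl
      · exact (h7.1 z hz).le
    rw [Walk.edges_cons, List.mem_cons, ih']
    unfold Con
    simp only [Walk.support_cons, List.mem_cons]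
    constructor
    · rintro (h1 | ⟨h1, h2, h3, h4⟩)
      · have h2 : x = a ∧ y = b' := by
          rw [Sym2.eq_iff] at h1
          rcases h1 with h1 | ⟨rfl, rfl⟩
          · exact h1
          · omega
        obtain ⟨rfl, rfl⟩ := h2
        refine ⟨Or.inl rfl, Or.inr p.start_mem_support, hxy, ?_⟩
        rintro z (rfl | hz) ⟨h5, h6⟩
        · omega
        · have := hmin z hz
          omega
      · refine ⟨Or.inr h1, Or.inr h2, h3, ?_⟩
        rintro z (rfl | hz)
        · have := hmin x h1
          omega
        · exact h4 z hz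
    · rintro ⟨h1, h2, h3, h4⟩
      rcases h1 with rfl | h1
      · rcases h2 with rfl | h2
        · omega
        · have h5 := hmin y h2
          have h6 := h4 b' (Or.inr p.start_mem_support)
          have h7 : f b' = f y := by omega
          exact Or.inl (by rw [hf h7])
      · refine Or.inr ⟨h1, ?_, h3, fun z hz => h4 z (Or.inr hz)⟩
        rcases h2 with rfl | h2
        · have := hmin x h1
          omega
        · exact h2

theorem mono_eq (f : Fin n → ℕ) (hf : Function.Injective f) {G : SimpleGraph (Fin n)}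
    {a b : Fin n} (p q : G.Walk a b) (hp : p.support.Pairwise (fun x y => f x < f y))
    (hq : q.support.Pairwise (fun x y => f x < f y))
    (h : ∀ x, x ∈ p.support ↔ x ∈ q.support) : p = q := by
  have key : ∀ x y, f x < f y → (s(x, y) ∈ p.edges ↔ s(x, y) ∈ q.edges) := by
    intro x y hxy
    rw [mem_edges_iff f hf p hp hxy, mem_edges_iff f hf q hq hxy]
    unfold Con
    simp only [h]
  refine path_eq p q (isPath_of_mono f p hp) (isPath_of_mono f q hq) fun e => ?_
  induction e with
  | _ x y =>
    rcases lt_trichotomy (f x) (f y) with h1 | h1 | h1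
    · exact key x y h1
    · have hxy := hf h1
      subst hxy
      constructor
      · intro hh
        exact absurd (G.mem_edgeSet.1 (p.edges_subset_edgeSet hh)) G.irrefl
      · intro hh
        exact absurd (G.mem_edgeSet.1 (q.edges_subset_edgeSet hh)) G.irrefl
    · rw [Sym2.eq_swap]
      exact key y x h1

/-- The upper end of an edge. -/
def upper (f : Fin n → ℕ) (hf : Function.Injective f) : Sym2 (Fin n) → Fin n :=
  Sym2.lift ⟨fun x y => if f x ≤ f y then y else x, by
    intro x y
    show (if f x ≤ f y then y else x) = (if f y ≤ f x then x else y)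
    split_ifs with h1 h2 h2
    · exact hf (by omega)
    · rfl
    · rfl
    · omega⟩

theorem map_upper (f : Fin n → ℕ) (hf : Function.Injective f) {G : SimpleGraph (Fin n)}
    {a b : Fin n} (p : G.Walk a b) (hp : p.support.Pairwise (fun x y => f x < f y)) :
    p.support.tail = p.edges.map (upper f hf) := by
  induction p with
  | nil => simp
  | @cons a b' b h p ih =>
    rw [Walk.support_cons, List.pairwise_cons] at hp
    have hab : f a < f b' := hp.1 b' p.start_mem_support
    rw [Walk.support_cons, List.tail_cons, Walk.edges_cons, List.map_cons, ← ih hp.2,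
      p.support_eq_cons, List.tail_cons]
    congr 1
    show b' = (if f a ≤ f b' then b' else a)
    rw [if_pos hab.le]

/-- The local lemma: swapping the two paths in a block. -/
theorem con_of_swap (f : Fin n → ℕ) (A B S T : Fin n → Prop)
    [DecidablePred A] [DecidablePred B] [DecidablePred S] [DecidablePred T]
    (hm : ∀ x, (if A x then 1 else 0) + (if B x then 1 else 0) =
      (if S x then 1 else 0) + (if T x then (1 : ℕ) else 0))
    (hf : Function.Injective f)
    (hc : ∀ x y, ¬ (S x ↔ T x) → ¬ (S y ↔ T y) → f x < f y →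
      (∀ z, S z → T z → ¬ (f x < f z ∧ f z < f y)) → ((A x ↔ S x) ↔ (A y ↔ S y)))
    (x y : Fin n) [Decidable (Con f A x y)] [Decidable (Con f B x y)] [Decidable (Con f S x y)]
    [Decidable (Con f T x y)] :
    (if Con f A x y then 1 else 0) + (if Con f B x y then 1 else 0) =
      (if Con f S x y then 1 else 0) + (if Con f T x y then (1 : ℕ) else 0) := by
  by_cases hz : ∃ z, S z ∧ T z ∧ f x < f z ∧ f z < f y
  · obtain ⟨z, h1, h2, h3, h4⟩ := hz
    have h5 := hm z
    rw [if_pos h1, if_pos h2] at h5
    have h6 : A z ∧ B z := by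
      by_cases hA : A z <;> by_cases hB : B z <;> simp [hA, hB] at h5 ⊢
    rw [if_neg (fun h => h.2.2.2 z h6.1 ⟨h3, h4⟩), if_neg (fun h => h.2.2.2 z h6.2 ⟨h3, h4⟩),
      if_neg (fun h => h.2.2.2 z h1 ⟨h3, h4⟩), if_neg (fun h => h.2.2.2 z h2 ⟨h3, h4⟩)]
  · have hcom : ∀ w, (S w ↔ T w) → ((A w ↔ S w) ∧ (B w ↔ T w) ∧ (A w ↔ T w) ∧ (B w ↔ S w)) := by
      intro w hw
      have h5 := hm w
      by_cases hA : A w <;> by_cases hB : B w <;> by_cases hS : S w <;> by_cases hT : T w <;>
        simp [hA, hB, hS, hT] at h5 hw ⊢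
    have hdif : ∀ w, ¬ (S w ↔ T w) → ((A w ↔ S w) → (B w ↔ T w)) ∧
        (¬ (A w ↔ S w) → (A w ↔ T w) ∧ (B w ↔ S w)) := by
      intro w hw
      have h5 := hm w
      by_cases hA : A w <;> by_cases hB : B w <;> by_cases hS : S w <;> by_cases hT : T w <;>
        simp [hA, hB, hS, hT] at h5 hw ⊢
    have hconst : (∀ w, f x ≤ f w → f w ≤ f y → ¬ (S w ↔ T w) → (A w ↔ S w)) ∨
        (∀ w, f x ≤ f w → f w ≤ f y → ¬ (S w ↔ T w) → ¬ (A w ↔ S w)) := by
      by_contra hcon
      rw [not_or] at hcon
      obtain ⟨hc1, hc2⟩ := hcon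
      push Not at hc1 hc2
      obtain ⟨w1, h1, h2, h3, h4⟩ := hc1
      obtain ⟨w2, h5, h6, h7, h8⟩ := hc2
      have h3' : ¬ (S w1 ↔ T w1) := by tauto
      have h4' : ¬ (A w1 ↔ S w1) := by tauto
      have h7' : ¬ (S w2 ↔ T w2) := by tauto
      have hne : f w1 ≠ f w2 := by
        intro hh
        rw [hf hh] at h4'
        exact h4' h8
      rcases lt_or_gt_of_ne hne with hlt | hlt
      · have := hc w1 w2 h3' h7' hlt (by
          rintro z hS hT ⟨ha, hb⟩
          exact hz ⟨z, hS, hT, by omega, by omega⟩)
        exact h4' (this.2 h8)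
      · have := hc w2 w1 h7' h3' hlt (by
          rintro z hS hT ⟨ha, hb⟩
          exact hz ⟨z, hS, hT, by omega, by omega⟩)
        exact h4' (this.1 h8)
    have hcongr : ∀ X Y : Fin n → Prop, (∀ w, f x ≤ f w → f w ≤ f y → (X w ↔ Y w)) →
        (Con f X x y ↔ Con f Y x y) := by
      intro X Y h
      unfold Con
      constructor
      · rintro ⟨h1, h2, h3, h4⟩
        refine ⟨(h x le_rfl h3.le).1 h1, (h y h3.le le_rfl).1 h2, h3, ?_⟩
        rintro z hz' ⟨h5, h6⟩
        exact h4 z ((h z h5.le h6.le).2 hz') ⟨h5, h6⟩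
      · rintro ⟨h1, h2, h3, h4⟩
        refine ⟨(h x le_rfl h3.le).2 h1, (h y h3.le le_rfl).2 h2, h3, ?_⟩
        rintro z hz' ⟨h5, h6⟩
        exact h4 z ((h z h5.le h6.le).1 hz') ⟨h5, h6⟩
    rcases hconst with h | h
    · have h1 : Con f A x y ↔ Con f S x y := by
        refine hcongr _ _ fun w hw1 hw2 => ?_
        by_cases hw : S w ↔ T w
        · exact (hcom w hw).1
        · exact h w hw1 hw2 hw
      have h2 : Con f B x y ↔ Con f T x y := by
        refine hcongr _ _ fun w hw1 hw2 => ?_
        by_cases hw : S w ↔ T w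
        · exact (hcom w hw).2.1
        · exact (hdif w hw).1 (h w hw1 hw2 hw)
      simp only [h1, h2]
    · have h1 : Con f A x y ↔ Con f T x y := by
        refine hcongr _ _ fun w hw1 hw2 => ?_
        by_cases hw : S w ↔ T w
        · exact (hcom w hw).2.2.1
        · exact ((hdif w hw).2 (h w hw1 hw2 hw)).1
      have h2 : Con f B x y ↔ Con f S x y := by
        refine hcongr _ _ fun w hw1 hw2 => ?_
        by_cases hw : S w ↔ T w
        · exact (hcom w hw).2.2.2
        · exact ((hdif w hw).2 (h w hw1 hw2 hw)).2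
      simp only [h1, h2]
      exact Nat.add_comm _ _

/-- The converse of the local lemma. -/
theorem swap_of_con (f : Fin n → ℕ) (A B S T : Fin n → Prop)
    [DecidablePred A] [DecidablePred B] [DecidablePred S] [DecidablePred T]
    (hm : ∀ x, (if A x then 1 else 0) + (if B x then 1 else 0) =
      (if S x then 1 else 0) + (if T x then (1 : ℕ) else 0))
    (hcon : ∀ x y, f x < f y → ∀ [Decidable (Con f A x y)] [Decidable (Con f B x y)]
      [Decidable (Con f S x y)] [Decidable (Con f T x y)],
      (if Con f A x y then 1 else 0) + (if Con f B x y then 1 else 0) =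
      (if Con f S x y then 1 else 0) + (if Con f T x y then (1 : ℕ) else 0)) :
    ∀ (d : ℕ) (x y : Fin n), f y - f x = d → ¬ (S x ↔ T x) → ¬ (S y ↔ T y) → f x < f y →
      (∀ z, S z → T z → ¬ (f x < f z ∧ f z < f y)) → ((A x ↔ S x) ↔ (A y ↔ S y)) := by
  intro d
  induction d using Nat.strong_induction_on with
  | _ d ih =>
    intro x y hd hx hy hxy hz
    by_cases hw : ∃ w, ¬ (S w ↔ T w) ∧ f x < f w ∧ f w < f y
    · obtain ⟨w, hw1, hw2, hw3⟩ := hw
      have h1 := ih (f w - f x) (by omega) x w rfl hx hw1 hw2 (by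
        rintro z hS hT ⟨ha, hb⟩
        exact hz z hS hT ⟨ha, by omega⟩)
      have h2 := ih (f y - f w) (by omega) w y rfl hw1 hy hw3 (by
        rintro z hS hT ⟨ha, hb⟩
        exact hz z hS hT ⟨by omega, hb⟩)
      exact h1.trans h2
    · have hno : ∀ w, f x < f w → f w < f y → ¬ S w ∧ ¬ T w := by
        intro w h1 h2
        have h3 : S w ↔ T w := by
          by_contra h3
          exact hw ⟨w, h3, h1, h2⟩
        have h4 : ¬ (S w ∧ T w) := fun h4 => hz w h4.1 h4.2 ⟨h1, h2⟩
        tauto
      have hno' : ∀ w, f x < f w → f w < f y → ¬ A w ∧ ¬ B w := by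
        intro w h1 h2
        have h3 := hno w h1 h2
        have h5 := hm w
        by_cases hA : A w <;> by_cases hB : B w <;> simp [hA, hB, h3.1, h3.2] at h5 ⊢
      have hC : ∀ X : Fin n → Prop, (∀ w, f x < f w → f w < f y → ¬ X w) →
          (Con f X x y ↔ X x ∧ X y) := by
        intro X hX
        unfold Con
        constructor
        · rintro ⟨h1, h2, -, -⟩
          exact ⟨h1, h2⟩
        · rintro ⟨h1, h2⟩
          exact ⟨h1, h2, hxy, fun z hz' hh => hX z hh.1 hh.2 hz'⟩
      classical
      have h0 := hcon x y hxy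
      simp only [hC A (fun w h1 h2 => (hno' w h1 h2).1), hC B (fun w h1 h2 => (hno' w h1 h2).2),
        hC S (fun w h1 h2 => (hno w h1 h2).1), hC T (fun w h1 h2 => (hno w h1 h2).2)] at h0
      have hx0 := hm x
      have hy0 := hm y
      by_cases h1 : A x <;> by_cases h2 : B x <;> by_cases h3 : S x <;> by_cases h4 : T x <;>
        simp [h1, h2, h3, h4] at hx0 hx h0 ⊢ <;>
        (by_cases h5 : A y <;> by_cases h6 : B y <;> by_cases h7 : S y <;> by_cases h8 : T y <;>
        simp [h5, h6, h7, h8] at hy0 hy h0 ⊢)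

end Pool.Agent.WalkProg43
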