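import Pool.Agent.WalkProg43.Paths

namespace Pool.Agent.WalkProg43

open SimpleGraph

variable {n : ℕ} {v : Fin n} {F : Type} [Field F]

section Two

variable {u : Fin n} (U D : (⊤ : SimpleGraph (Fin n)).Walk v u)

theorem toFinset_append_reverse :
    (U.append D.reverse).edges.toFinset = (U.edges ++ D.edges).toFinset := by
  rw [Walk.edges_append, Walk.edges_reverse]
  ext e
  simp

variable (huv : u ≠ v) (hU : U.support.Pairwise (fun x y => lev v u x < lev v u y))
  (hD : D.support.Pairwise (fun x y => lev v u x < lev v u y))
include hU hD

/-- Every closed walk whose edge set is that of the closed walk `U D⁻¹` is at least as long. -/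
theorem edges_le (p : (⊤ : SimpleGraph (Fin n)).Walk v v)
    (hp : p.edges.toFinset = (U.append D.reverse).edges.toFinset) :
    ((U.append D.reverse).edges : Multiset (Sym2 (Fin n))) ≤ (p.edges : Multiset _) := by
  rw [toFinset_append_reverse] at hp
  rw [Multiset.le_iff_count]
  intro e
  rw [Multiset.coe_count, Multiset.coe_count, Walk.edges_append, Walk.edges_reverse,
    List.count_append, List.count_reverse, ← List.count_append]
  exact count_le (lev v u) (lev_injective v u) U D hU hD p hp e

theorem perm_of_length_le (p : (⊤ : SimpleGraph (Fin n)).Walk v v)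
    (hp : p.edges.toFinset = (U.append D.reverse).edges.toFinset)
    (hlen : p.length ≤ (U.append D.reverse).length) :
    p.edges.Perm (U.append D.reverse).edges := by
  have h := edges_le U D hU hD p hp
  have h2 : (p.edges : Multiset (Sym2 (Fin n))) = ((U.append D.reverse).edges : Multiset _) := by
    refine (Multiset.eq_of_le_of_card_le h ?_).symm
    rw [Multiset.coe_card, Multiset.coe_card, Walk.length_edges, Walk.length_edges]
    exact hlen
  exact Multiset.coe_eq_coe.1 h2

end Two

end Pool.Agent.WalkProg43
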