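import Pool.Agent.WalkProg43.Fiber
import Pool.Agent.WalkProg43.Two

/-! The number of closed walks with the edges of two monotone paths divides a power of two. -/

namespace Pool.Agent.WalkProg43

open SimpleGraph

variable {n : ℕ}

theorem takeUntil_end {V : Type*} [DecidableEq V] {G : SimpleGraph V} {a b : V} (q : G.Walk a b)
    (hq : q.IsPath) : q.takeUntil b q.end_mem_support = q := by
  have h1 := q.take_spec q.end_mem_support
  have h2 : (q.dropUntil b q.end_mem_support).IsPath := hq.dropUntil _
  rw [Walk.isPath_iff_eq_nil] at h2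
  rw [h2, Walk.append_nil] at h1
  exact h1

theorem append_uniq {V : Type*} [DecidableEq V] {G : SimpleGraph V} {a b c : V}
    (q q' : G.Walk a b) (r r' : G.Walk b c) (hq : q.IsPath) (hq' : q'.IsPath)
    (h : q.append r = q'.append r') : q = q' := by
  have key : ∀ (w w' : G.Walk a c) (_ : w = w') (hw : b ∈ w.support) (hw' : b ∈ w'.support),
      w.takeUntil b hw = w'.takeUntil b hw' := by
    rintro w w' rfl hw hw'
    rfl
  have hb : b ∈ (q.append r).support :=
    Walk.support_subset_support_append_left _ _ q.end_mem_support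
  have hb' : b ∈ (q'.append r').support :=
    Walk.support_subset_support_append_left _ _ q'.end_mem_support
  have h1 := key _ _ h hb hb'
  rw [Walk.takeUntil_append_of_mem_left q r q.end_mem_support,
    Walk.takeUntil_append_of_mem_left q' r' q'.end_mem_support, takeUntil_end q hq,
    takeUntil_end q' hq'] at h1
  exact h1

section

variable {v u : Fin n}

theorem lev_le (huv : u ≠ v) (x : Fin n) : lev v u x ≤ lev v u u := by
  have hx := x.isLt
  unfold lev
  simp only [huv, if_false, if_true]
  split_ifs <;> omega

theorem lev_u (huv : u ≠ v) : lev v u u = n + 1 := by simp [lev, huv]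

theorem lev_v : lev v u v = 0 := by simp [lev]

theorem ind_eq (f : Fin n → ℕ) {G : SimpleGraph (Fin n)} {a b : Fin n} (q : G.Walk a b)
    (hq : q.support.Pairwise (fun x y => f x < f y)) (x : Fin n) (hx : x ≠ a) :
    (if x ∈ q.support then 1 else 0) = q.support.tail.count x := by
  have h1 := (isPath_of_mono f q hq).support_nodup
  rw [q.support_eq_cons] at h1 ⊢
  rw [List.tail_cons, (List.nodup_cons.1 h1).2.count]
  simp only [List.mem_cons, hx, false_or]

variable (U D : (⊤ : SimpleGraph (Fin n)).Walk v u)
  (hU : U.support.Pairwise (fun x y => lev v u x < lev v u y))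
  (hD : D.support.Pairwise (fun x y => lev v u x < lev v u y))
include hU hD

theorem decomp (huv : u ≠ v) (p : (⊤ : SimpleGraph (Fin n)).Walk v v)
    (hp : p.edges.Perm (U.append D.reverse).edges) :
    ∃ q1 q2 : (⊤ : SimpleGraph (Fin n)).Walk v u,
      q1.support.Pairwise (fun x y => lev v u x < lev v u y) ∧
      q2.support.Pairwise (fun x y => lev v u x < lev v u y) ∧
      p = q1.append q2.reverse ∧ (q1.edges ++ q2.edges).Perm (U.edges ++ D.edges) := by
  classical
  have hUn : ¬ U.Nil := by
    intro h
    exact huv h.eq.symm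
  have hup : u ∈ p.support := by
    have h1 := (Walk.mem_support_iff_exists_mem_edges_of_not_nil hUn).1 U.end_mem_support
    obtain ⟨e, he, hue⟩ := h1
    have h2 : e ∈ p.edges := by
      rw [hp.mem_iff, Walk.edges_append]
      exact List.mem_append_left _ he
    exact Walk.mem_support_of_mem_edges h2 hue
  set q1 := p.takeUntil u hup with hq1
  set r := p.dropUntil u hup with hr
  have hspec : q1.append r = p := p.take_spec hup
  have hcnt : ∀ c, q1.edges.countP (cr (lev v u) c) + r.edges.countP (cr (lev v u) c) ≤ 2 := by
    intro c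
    rw [← List.countP_append, ← Walk.edges_append, hspec, hp.countP_eq, Walk.edges_append,
      Walk.edges_reverse, List.countP_append, List.countP_reverse]
    have := mono_le_one (lev v u) c U hU
    have := mono_le_one (lev v u) c D hD
    omega
  have hle : ∀ c, q1.edges.countP (cr (lev v u) c) ≤ 1 ∧ r.edges.countP (cr (lev v u) c) ≤ 1 := by
    intro c
    have h0 := hcnt c
    by_cases hc : lev v u u ≤ c
    · have hz : ∀ l : List (Sym2 (Fin n)), l.countP (cr (lev v u) c) = 0 := by
        intro l
        rw [List.countP_eq_zero]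
        intro e _
        induction e with
        | _ x y =>
          rw [cr_mk]
          have h1 := (lev_le huv x).trans hc
          have h2 := (lev_le huv y).trans hc
          simp [h1, h2]
      rw [hz, hz]
      omega
    · have h1 := parity (lev v u) c q1
      have h2 := parity (lev v u) c r
      have h3 : lev v u v ≤ c := by rw [lev_v]; omega
      generalize q1.edges.countP (cr (lev v u) c) = k1 at h0 h1 ⊢
      generalize r.edges.countP (cr (lev v u) c) = k2 at h0 h2 ⊢
      simp only [hc, h3, decide_true, decide_false] at h1 h2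
      simp at h1 h2
      omega
  refine ⟨q1, r.reverse, ?_, ?_, ?_, ?_⟩
  · exact mono_of_le_one _ (lev_injective v u) q1 (lev_le huv) fun c => (hle c).1
  · refine mono_of_le_one _ (lev_injective v u) r.reverse (lev_le huv) fun c => ?_
    rw [Walk.edges_reverse, List.countP_reverse]
    exact (hle c).2
  · rw [Walk.reverse_reverse]
    exact hspec.symm
  · rw [Walk.edges_reverse]
    refine ((List.reverse_perm _).append_left _).trans ?_
    rw [← Walk.edges_append, hspec]
    refine hp.trans ?_
    rw [Walk.edges_append, Walk.edges_reverse]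
    exact (List.reverse_perm _).append_left _

theorem ind_sum (q1 q2 : (⊤ : SimpleGraph (Fin n)).Walk v u)
    (h1 : q1.support.Pairwise (fun x y => lev v u x < lev v u y))
    (h2 : q2.support.Pairwise (fun x y => lev v u x < lev v u y))
    (hperm : (q1.edges ++ q2.edges).Perm (U.edges ++ D.edges)) (x : Fin n) :
    (if x ∈ q1.support then 1 else 0) + (if x ∈ q2.support then 1 else 0) =
      (if x ∈ U.support then 1 else 0) + (if x ∈ D.support then (1 : ℕ) else 0) := by
  by_cases hx : x = v
  · subst hx
    simp
  · rw [ind_eq _ q1 h1 x hx, ind_eq _ q2 h2 x hx, ind_eq _ U hU x hx, ind_eq _ D hD x hx,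
      ← List.count_append, ← List.count_append, map_upper _ (lev_injective v u) q1 h1,
      map_upper _ (lev_injective v u) q2 h2, map_upper _ (lev_injective v u) U hU,
      map_upper _ (lev_injective v u) D hD, ← List.map_append, ← List.map_append]
    exact (hperm.map _).count_eq x

omit hU hD in
theorem count_edges (q : (⊤ : SimpleGraph (Fin n)).Walk v u)
    (h : q.support.Pairwise (fun x y => lev v u x < lev v u y)) (x y : Fin n)
    (hxy : lev v u x < lev v u y) [Decidable (Con (lev v u) (fun z => z ∈ q.support) x y)] :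
    q.edges.count s(x, y) =
      if Con (lev v u) (fun z => z ∈ q.support) x y then 1 else 0 := by
  rw [(isPath_of_mono _ q h).isTrail.edges_nodup.count]
  simp only [mem_edges_iff _ (lev_injective v u) q h hxy]

theorem con_sum (q1 q2 : (⊤ : SimpleGraph (Fin n)).Walk v u)
    (h1 : q1.support.Pairwise (fun x y => lev v u x < lev v u y))
    (h2 : q2.support.Pairwise (fun x y => lev v u x < lev v u y))
    (hperm : (q1.edges ++ q2.edges).Perm (U.edges ++ D.edges)) (x y : Fin n)
    (hxy : lev v u x < lev v u y)
    [Decidable (Con (lev v u) (fun z => z ∈ q1.support) x y)]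
    [Decidable (Con (lev v u) (fun z => z ∈ q2.support) x y)]
    [Decidable (Con (lev v u) (fun z => z ∈ U.support) x y)]
    [Decidable (Con (lev v u) (fun z => z ∈ D.support) x y)] :
    (if Con (lev v u) (fun z => z ∈ q1.support) x y then 1 else 0) +
      (if Con (lev v u) (fun z => z ∈ q2.support) x y then 1 else 0) =
    (if Con (lev v u) (fun z => z ∈ U.support) x y then 1 else 0) +
      (if Con (lev v u) (fun z => z ∈ D.support) x y then (1 : ℕ) else 0) := by
  rw [← count_edges q1 h1 x y hxy, ← count_edges q2 h2 x y hxy, ← count_edges U hU x y hxy,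
    ← count_edges D hD x y hxy, ← List.count_append, ← List.count_append]
  exact hperm.count_eq _

theorem perm_of_con (q1 q2 : (⊤ : SimpleGraph (Fin n)).Walk v u)
    (h1 : q1.support.Pairwise (fun x y => lev v u x < lev v u y))
    (h2 : q2.support.Pairwise (fun x y => lev v u x < lev v u y))
    (hcon : ∀ x y, lev v u x < lev v u y →
      ∀ [Decidable (Con (lev v u) (fun z => z ∈ q1.support) x y)]
    [Decidable (Con (lev v u) (fun z => z ∈ q2.support) x y)]
    [Decidable (Con (lev v u) (fun z => z ∈ U.support) x y)]
    [Decidable (Con (lev v u) (fun z => z ∈ D.support) x y)],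
    (if Con (lev v u) (fun z => z ∈ q1.support) x y then 1 else 0) +
      (if Con (lev v u) (fun z => z ∈ q2.support) x y then 1 else 0) =
    (if Con (lev v u) (fun z => z ∈ U.support) x y then 1 else 0) +
      (if Con (lev v u) (fun z => z ∈ D.support) x y then (1 : ℕ) else 0)) :
    (q1.edges ++ q2.edges).Perm (U.edges ++ D.edges) := by
  classical
  have key : ∀ x y, lev v u x < lev v u y →
      (q1.edges ++ q2.edges).count s(x, y) = (U.edges ++ D.edges).count s(x, y) := by
    intro x y hxy
    rw [List.count_append, List.count_append, count_edges q1 h1 x y hxy,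
      count_edges q2 h2 x y hxy, count_edges U hU x y hxy, count_edges D hD x y hxy]
    exact hcon x y hxy
  rw [List.perm_iff_count]
  intro e
  induction e with
  | _ x y =>
    rcases lt_trichotomy (lev v u x) (lev v u y) with h3 | h3 | h3
    · exact key x y h3
    · have hxy := lev_injective v u h3
      subst hxy
      have hz : ∀ q : (⊤ : SimpleGraph (Fin n)).Walk v u, q.edges.count s(x, x) = 0 := by
        intro q
        rw [List.count_eq_zero]
        intro hh
        exact absurd (SimpleGraph.mem_edgeSet _ |>.1 (q.edges_subset_edgeSet hh))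
          (SimpleGraph.irrefl _)
      rw [List.count_append, List.count_append, hz, hz, hz, hz]
    · rw [Sym2.eq_swap]
      exact key y x h3

/-- The number of closed walks of length at most `n` with the edge set of `U D⁻¹` divides `2 ^ n`,
when `U D⁻¹` has length `n`. -/
theorem fiber_card_dvd (huv : u ≠ v) (hlen : (U.append D.reverse).length = n) :
    ((allWalks n v).filter (fun p => p.edges.toFinset =
      (U.append D.reverse).edges.toFinset)).card ∣ 2 ^ n := by
  classical
  set Z := (allWalks n v).filter (fun p => p.edges.toFinset =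
      (U.append D.reverse).edges.toFinset) with hZ
  have hZp : ∀ p ∈ Z, p.edges.Perm (U.append D.reverse).edges := by
    intro p hp
    rw [hZ, Finset.mem_filter, mem_allWalks] at hp
    exact perm_of_length_le U D hU hD p hp.2 (by rw [hlen]; exact hp.1)
  let H : AddSubgroup (Fin n → ZMod 2) :=
    { carrier := {g | (∀ x, (x ∈ U.support ↔ x ∈ D.support) → g x = 0) ∧
        ∀ x y, ¬ (x ∈ U.support ↔ x ∈ D.support) → ¬ (y ∈ U.support ↔ y ∈ D.support) →
          lev v u x < lev v u y →
          (∀ z, z ∈ U.support → z ∈ D.support → ¬ (lev v u x < lev v u z ∧ lev v u z < lev v u y)) →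
          g x = g y}
      zero_mem' := ⟨fun _ _ => rfl, fun _ _ _ _ _ _ => rfl⟩
      add_mem' := by
        rintro g h ⟨h1, h2⟩ ⟨h3, h4⟩
        refine ⟨fun x hx => ?_, fun x y ha hb hc hd => ?_⟩
        · rw [Pi.add_apply, h1 x hx, h3 x hx, add_zero]
        · rw [Pi.add_apply, Pi.add_apply, h2 x y ha hb hc hd, h4 x y ha hb hc hd]
      neg_mem' := by
        rintro g ⟨h1, h2⟩
        refine ⟨fun x hx => ?_, fun x y ha hb hc hd => ?_⟩
        · rw [Pi.neg_apply, h1 x hx, neg_zero]
        · rw [Pi.neg_apply, Pi.neg_apply, h2 x y ha hb hc hd] }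
  have hdec : ∀ p : {p // p ∈ Z}, ∃ q1 q2 : (⊤ : SimpleGraph (Fin n)).Walk v u,
      q1.support.Pairwise (fun x y => lev v u x < lev v u y) ∧
      q2.support.Pairwise (fun x y => lev v u x < lev v u y) ∧
      p.1 = q1.append q2.reverse ∧ (q1.edges ++ q2.edges).Perm (U.edges ++ D.edges) :=
    fun p => decomp U D hU hD huv p.1 (hZp p.1 p.2)
  choose q1 q2 h1 h2 h3 h4 using hdec
  have hmem : ∀ p : {p // p ∈ Z}, (fun x => ((if x ∈ (q1 p).support then 1 else 0) +
      (if x ∈ U.support then 1 else 0) : ZMod 2)) ∈ H := by
    intro p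
    have hs := ind_sum U D hU hD (q1 p) (q2 p) (h1 p) (h2 p) (h4 p)
    refine ⟨fun x hx => ?_, fun x y ha hb hc hd => ?_⟩
    · have h5 := hs x
      by_cases hA : x ∈ (q1 p).support <;> by_cases hB : x ∈ (q2 p).support <;>
        by_cases hS : x ∈ U.support <;> by_cases hT : x ∈ D.support <;>
        simp [hA, hB, hS, hT] at h5 hx ⊢
      exact CharTwo.add_self_eq_zero 1
    · have h6 := swap_of_con (lev v u) (fun z => z ∈ (q1 p).support) (fun z => z ∈ (q2 p).support)
        (fun z => z ∈ U.support) (fun z => z ∈ D.support) hs (by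
          intro x y hxy i1 i2 i3 i4
          exact con_sum U D hU hD (q1 p) (q2 p) (h1 p) (h2 p) (h4 p) x y hxy)
        (lev v u y - lev v u x) x y rfl ha hb hc hd
      by_cases hA : x ∈ (q1 p).support <;> by_cases hB : y ∈ (q1 p).support <;>
        by_cases hS : x ∈ U.support <;> by_cases hT : y ∈ U.support <;>
        simp [hA, hB, hS, hT] at h6 ⊢
      · exact (CharTwo.add_self_eq_zero 1)
      · exact (CharTwo.add_self_eq_zero 1).symm
  let Φ : {p // p ∈ Z} → H := fun p => ⟨_, hmem p⟩
  have hinj : Function.Injective Φ := by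
    intro p p' hpp
    have h5 : ∀ x, x ∈ (q1 p).support ↔ x ∈ (q1 p').support := by
      intro x
      have h6 := congrFun (congrArg Subtype.val hpp) x
      have h7 : ((if x ∈ (q1 p).support then 1 else 0) + (if x ∈ U.support then 1 else 0) :
          ZMod 2) = (if x ∈ (q1 p').support then 1 else 0) +
            (if x ∈ U.support then 1 else 0) := h6
      have h8 := add_right_cancel h7
      by_cases hA : x ∈ (q1 p).support <;> by_cases hB : x ∈ (q1 p').support <;>
        simp [hA, hB] at h8 ⊢
    have h6 : q1 p = q1 p' := mono_eq (lev v u) (lev_injective v u) _ _ (h1 p) (h1 p') h5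
    have h7 : (q2 p).edges.Perm (q2 p').edges := by
      have h8 := (h4 p).trans (h4 p').symm
      rw [h6] at h8
      exact (List.perm_append_left_iff _).1 h8
    have h8 : q2 p = q2 p' := path_eq _ _ (isPath_of_mono _ _ (h2 p)) (isPath_of_mono _ _ (h2 p'))
      fun e => h7.mem_iff
    apply Subtype.ext
    rw [h3 p, h3 p', h6, h8]
  have hsurj : Function.Surjective Φ := by
    rintro ⟨g, hg1, hg2⟩
    have hz2 : ∀ z : ZMod 2, z = 0 ∨ z = 1 := by decide
    have h11 : (1 : ZMod 2) + 1 = 0 := by decide
    obtain ⟨A, hA⟩ : ∃ A : Finset (Fin n), A = Finset.univ.filter (fun x => x ≠ v ∧ x ≠ u ∧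
      ((if x ∈ U.support then 1 else 0) + g x : ZMod 2) = 1) := ⟨_, rfl⟩
    obtain ⟨B, hB⟩ : ∃ B : Finset (Fin n), B = Finset.univ.filter (fun x => x ≠ v ∧ x ≠ u ∧
      ((if x ∈ D.support then 1 else 0) + g x : ZMod 2) = 1) := ⟨_, rfl⟩
    obtain ⟨qA, hqA1, hqA2, hqA3⟩ := exists_up huv A (by simp [hA]) (by simp [hA])
    obtain ⟨qB, hqB1, hqB2, hqB3⟩ := exists_up huv B (by simp [hB]) (by simp [hB])
    have hvU : v ∈ U.support := U.start_mem_support
    have hvD : v ∈ D.support := D.start_mem_support
    have huU : u ∈ U.support := U.end_mem_support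
    have huD : u ∈ D.support := D.end_mem_support
    have hgv : g v = 0 := hg1 v (by simp)
    have hgu : g u = 0 := hg1 u (by simp)
    have hmA : ∀ x, x ∈ qA.support ↔ ((if x ∈ U.support then 1 else 0) + g x : ZMod 2) = 1 := by
      intro x
      rw [hqA2 x, hA, Finset.mem_filter]
      by_cases hxv : x = v
      · subst hxv; simp [hgv]
      · by_cases hxu : x = u
        · subst hxu; simp [hgu]
        · simp [hxv, hxu]
    have hmB : ∀ x, x ∈ qB.support ↔ ((if x ∈ D.support then 1 else 0) + g x : ZMod 2) = 1 := by
      intro x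
      rw [hqB2 x, hB, Finset.mem_filter]
      by_cases hxv : x = v
      · subst hxv; simp [hgv]
      · by_cases hxu : x = u
        · subst hxu; simp [hgu]
        · simp [hxv, hxu]
    have hsum : ∀ x, (if x ∈ qA.support then 1 else 0) + (if x ∈ qB.support then 1 else 0) =
        (if x ∈ U.support then 1 else 0) + (if x ∈ D.support then (1 : ℕ) else 0) := by
      intro x
      simp only [hmA x, hmB x]
      have h0 := hg1 x
      by_cases hS : x ∈ U.support <;> by_cases hT : x ∈ D.support <;>
        rcases hz2 (g x) with h | h <;> simp [hS, hT, h, h11] at h0 ⊢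
    have hperm : (qA.edges ++ qB.edges).Perm (U.edges ++ D.edges) := by
      refine perm_of_con U D hU hD qA qB hqA1 hqB1 ?_
      intro x y hxy i1 i2 i3 i4
      refine con_of_swap (lev v u) (fun z => z ∈ qA.support) (fun z => z ∈ qB.support)
        (fun z => z ∈ U.support) (fun z => z ∈ D.support) hsum (lev_injective v u) ?_ x y
      intro x y ha hb hc hd
      have h5 := hg2 x y ha hb hc hd
      simp only [hmA x, hmA y, h5]
      by_cases hS : x ∈ U.support <;> by_cases hT : y ∈ U.support <;>
        rcases hz2 (g y) with h | h <;> simp [hS, hT, h, h11]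
    have hpZ : qA.append qB.reverse ∈ Z := by
      have hperm' : (qA.append qB.reverse).edges.Perm (U.append D.reverse).edges := by
        rw [Walk.edges_append, Walk.edges_append, Walk.edges_reverse, Walk.edges_reverse]
        refine ((List.reverse_perm _).append_left _).trans (hperm.trans ?_)
        exact ((List.reverse_perm _).append_left _).symm
      rw [hZ, Finset.mem_filter, mem_allWalks]
      refine ⟨?_, ?_⟩
      · rw [← Walk.length_edges, hperm'.length_eq, Walk.length_edges, hlen]
      · exact List.toFinset_eq_of_perm _ _ hperm'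
    refine ⟨⟨_, hpZ⟩, ?_⟩
    have hq1 : q1 ⟨_, hpZ⟩ = qA :=
      (append_uniq _ _ _ _ (isPath_of_mono _ _ hqA1) (isPath_of_mono _ _ (h1 ⟨_, hpZ⟩))
        (h3 ⟨_, hpZ⟩)).symm
    apply Subtype.ext
    funext x
    show ((if x ∈ (q1 ⟨_, hpZ⟩).support then 1 else 0) +
      (if x ∈ U.support then 1 else 0) : ZMod 2) = g x
    rw [hq1]
    simp only [hmA x]
    by_cases hS : x ∈ U.support <;> rcases hz2 (g x) with h | h <;> simp [hS, h, h11]
  have hcard : Z.card = Nat.card H := by
    rw [← Nat.card_congr (Equiv.ofBijective Φ ⟨hinj, hsurj⟩)]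
    simp
  rw [hcard]
  have h5 := AddSubgroup.card_addSubgroup_dvd_card H
  have h6 : Nat.card (Fin n → ZMod 2) = 2 ^ n := by
    simp
  rwa [h6] at h5

end

end Pool.Agent.WalkProg43
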