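import Pool.Agent.WalkProg43.GFiber

/-! Closed walks through transversals of a sequence of pairs of vertices. -/

namespace Pool.Agent.WalkProg43

open SimpleGraph

variable {n : ℕ} {v : Fin n} {F : Type} [Field F]

/-- The coefficient of a closed walk does not change if the vertices are relabelled by a
permutation of the vertex set, which fixes `v`. -/
def WalkProgram.RelabelInvariant (P : WalkProgram n v F) : Prop :=
  ∀ (σ : Equiv.Perm (Fin n)) (p q : (⊤ : SimpleGraph (Fin n)).Walk v v),
    q.support = p.support.map σ → P.weight q = P.weight p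

theorem weight_of_map (P : WalkProgram n v F) (hinv : P.RelabelInvariant) (σ : Fin n → Fin n)
    (hσ : Function.Injective σ) (p q : (⊤ : SimpleGraph (Fin n)).Walk v v)
    (h : q.support = p.support.map σ) : P.weight q = P.weight p :=
  hinv (Equiv.ofBijective σ (Finite.injective_iff_bijective.1 hσ)) p q h

theorem support_append_map {u : Fin n} (σ : Fin n → Fin n)
    (U U' : (⊤ : SimpleGraph (Fin n)).Walk v u) (Q Q' : (⊤ : SimpleGraph (Fin n)).Walk u v)
    (h1 : U'.support = U.support.map σ) (h2 : Q'.support = Q.support.map σ) :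
    (U'.append Q').support = (U.append Q).support.map σ := by
  rw [Walk.support_append, Walk.support_append, List.map_append, h1, h2, List.map_tail]

section Frame

variable {h : ℕ} {u : Fin n} (E : Fin h × Bool → Fin n) (hE : Function.Injective E)
  (hEv : ∀ k, E k ≠ v) (hEu : ∀ k, E k ≠ u) (huv : u ≠ v)

open Classical in
/-- Exchange the two elements of the pairs with `d i = true`. -/
noncomputable def flipFn (d : Fin h → Bool) (x : Fin n) : Fin n :=
  if hx : ∃ k, E k = x then
    E ((Classical.choose hx).1, xor (Classical.choose hx).2 (d (Classical.choose hx).1))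
  else x

include hE in
theorem flipFn_apply (d : Fin h → Bool) (i : Fin h) (b : Bool) :
    flipFn E d (E (i, b)) = E (i, xor b (d i)) := by
  have hx : ∃ k, E k = E (i, b) := ⟨(i, b), rfl⟩
  have h1 : Classical.choose hx = (i, b) := hE (Classical.choose_spec hx)
  unfold flipFn
  rw [dif_pos hx]
  simp only [h1]

theorem flipFn_of_not (d : Fin h → Bool) (x : Fin n) (hx : ∀ k, E k ≠ x) :
    flipFn E d x = x := by
  unfold flipFn
  rw [dif_neg]
  rintro ⟨k, hk⟩
  exact hx k hk

include hE in
theorem flipFn_injective (d : Fin h → Bool) : Function.Injective (flipFn E d) := by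
  have hinv : ∀ x, flipFn E d (flipFn E d x) = x := by
    intro x
    by_cases hx : ∃ k, E k = x
    · obtain ⟨⟨i, b⟩, rfl⟩ := hx
      rw [flipFn_apply E hE, flipFn_apply E hE, Bool.xor_assoc, Bool.xor_self, Bool.xor_false]
    · push Not at hx
      rw [flipFn_of_not E d x hx, flipFn_of_not E d x hx]
  intro x y hxy
  rw [← hinv x, hxy, hinv y]

open Classical in
/-- The height of a vertex: first `v`, then the pairs, then the other vertices, then `u`. -/
noncomputable def hgt (v u : Fin n) (x : Fin n) : ℕ :=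
  if x = v then 0 else if x = u then 2 * h + n + 5 else
    if hx : ∃ k, E k = x then
      2 * ((Classical.choose hx).1 : ℕ) + 1 + (if (Classical.choose hx).2 then 1 else 0)
    else 2 * h + 1 + x.val

theorem hgt_v : hgt E v u v = 0 := by simp [hgt]

include huv in
theorem hgt_u : hgt E v u u = 2 * h + n + 5 := by simp [hgt, huv]

include hE hEv hEu in
theorem hgt_E (i : Fin h) (b : Bool) :
    hgt E v u (E (i, b)) = 2 * (i : ℕ) + 1 + (if b then 1 else 0) := by
  have hx : ∃ k, E k = E (i, b) := ⟨(i, b), rfl⟩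
  have h1 : Classical.choose hx = (i, b) := hE (Classical.choose_spec hx)
  unfold hgt
  rw [if_neg (hEv _), if_neg (hEu _), dif_pos hx]
  simp only [h1]

theorem hgt_other (x : Fin n) (hv : x ≠ v) (hu : x ≠ u) (hx : ∀ k, E k ≠ x) :
    hgt E v u x = 2 * h + 1 + x.val := by
  unfold hgt
  rw [if_neg hv, if_neg hu, dif_neg]
  rintro ⟨k, hk⟩
  exact hx k hk

include hE hEv hEu huv in
theorem hgt_cases (x : Fin n) : (x = v ∧ hgt E v u x = 0) ∨ (x = u ∧ hgt E v u x = 2 * h + n + 5) ∨
    (∃ i b, x = E (i, b) ∧ hgt E v u x = 2 * (i : ℕ) + 1 + (if b then 1 else 0)) ∨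
    ((∀ k, E k ≠ x) ∧ hgt E v u x = 2 * h + 1 + x.val) := by
  by_cases h1 : x = v
  · subst h1; exact Or.inl ⟨rfl, hgt_v E⟩
  · by_cases h2 : x = u
    · subst h2; exact Or.inr (Or.inl ⟨rfl, hgt_u E huv⟩)
    · by_cases hx : ∃ k, E k = x
      · obtain ⟨⟨i, b⟩, rfl⟩ := hx
        exact Or.inr (Or.inr (Or.inl ⟨i, b, rfl, hgt_E E hE hEv hEu i b⟩))
      · push Not at hx
        exact Or.inr (Or.inr (Or.inr ⟨hx, hgt_other E x h1 h2 hx⟩))

include hE hEv hEu huv in
theorem hgt_injective : Function.Injective (hgt E v u) := by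
  intro x y hxy
  have hx' := x.isLt
  have hy' := y.isLt
  rcases hgt_cases E hE hEv hEu huv x with ⟨rfl, h1⟩ | ⟨rfl, h1⟩ | ⟨i, b, rfl, h1⟩ | ⟨hx, h1⟩ <;>
  rcases hgt_cases E hE hEv hEu huv y with ⟨rfl, h2⟩ | ⟨rfl, h2⟩ | ⟨j, c, rfl, h2⟩ | ⟨hy, h2⟩
  · rfl
  · omega
  · split_ifs at h2 <;> omega
  · omega
  · omega
  · rfl
  · have := j.isLt
    split_ifs at h2 <;> omega
  · omega
  · split_ifs at h1 <;> omega
  · have := i.isLt
    split_ifs at h1 <;> omega
  · have hij : (i : ℕ) = j ∧ b = c := by
      rw [h1, h2] at hxy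
      cases b <;> cases c <;> simp at hxy ⊢ <;> omega
    rw [Fin.ext hij.1, hij.2]
  · have := i.isLt
    split_ifs at h1 <;> omega
  · omega
  · omega
  · have := j.isLt
    split_ifs at h2 <;> omega
  · exact Fin.ext (by omega)

include hE hEv hEu huv in
theorem hgt_le (x : Fin n) : hgt E v u x ≤ hgt E v u u := by
  have hx' := x.isLt
  rw [hgt_u E huv]
  rcases hgt_cases E hE hEv hEu huv x with ⟨rfl, h1⟩ | ⟨rfl, h1⟩ | ⟨i, b, rfl, h1⟩ | ⟨hx, h1⟩
  · omega
  · omega
  · have := i.isLt
    split_ifs at h1 <;> omega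
  · omega

theorem hgt_ge (x : Fin n) : hgt E v u v ≤ hgt E v u x := by
  rw [hgt_v]
  exact Nat.zero_le _

include hE hEv hEu huv in
theorem pairwise_frame (c : Fin h → Bool) :
    (v :: (List.ofFn (fun i => E (i, c i)) ++ [u])).Pairwise
      (fun x y => hgt E v u x < hgt E v u y) := by
  rw [List.pairwise_cons, List.pairwise_append]
  refine ⟨?_, ?_, by simp, ?_⟩
  · intro x hx
    rw [List.mem_append, List.mem_singleton, List.mem_ofFn] at hx
    rw [hgt_v]
    rcases hx with ⟨i, rfl⟩ | rfl
    · rw [hgt_E E hE hEv hEu]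
      omega
    · rw [hgt_u E huv]
      omega
  · rw [List.pairwise_ofFn]
    intro i j hij
    rw [hgt_E E hE hEv hEu, hgt_E E hE hEv hEu]
    have : (i : ℕ) < j := hij
    split_ifs <;> omega
  · intro x hx y hy
    rw [List.mem_ofFn] at hx
    obtain ⟨i, rfl⟩ := hx
    rw [List.mem_singleton] at hy
    subst hy
    rw [hgt_E E hE hEv hEu, hgt_u E huv]
    have := i.isLt
    split_ifs <;> omega

include hE hEv hEu huv in
theorem exists_path (c : Fin h → Bool) : ∃ p : (⊤ : SimpleGraph (Fin n)).Walk v u,
    p.support = v :: (List.ofFn (fun i => E (i, c i)) ++ [u]) := by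
  refine exists_walk _ v u ?_
  refine (pairwise_frame E hE hEv hEu huv c).imp ?_
  intro x y h1 h2
  rw [h2] at h1
  exact lt_irrefl _ h1

/-- The path from `v` to `u` through the chosen elements of the pairs. -/
noncomputable def framePath (c : Fin h → Bool) : (⊤ : SimpleGraph (Fin n)).Walk v u :=
  Classical.choose (exists_path E hE hEv hEu huv c)

theorem framePath_support (c : Fin h → Bool) :
    (framePath E hE hEv hEu huv c).support = v :: (List.ofFn (fun i => E (i, c i)) ++ [u]) :=
  Classical.choose_spec (exists_path E hE hEv hEu huv c)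

theorem framePath_mono (c : Fin h → Bool) :
    (framePath E hE hEv hEu huv c).support.Pairwise (fun x y => hgt E v u x < hgt E v u y) := by
  rw [framePath_support]
  exact pairwise_frame E hE hEv hEu huv c

theorem framePath_length (c : Fin h → Bool) :
    (framePath E hE hEv hEu huv c).length = h + 1 := by
  have h1 := (framePath E hE hEv hEu huv c).length_support
  rw [framePath_support] at h1
  simp at h1
  omega

theorem mem_framePath (c : Fin h → Bool) (x : Fin n) :
    x ∈ (framePath E hE hEv hEu huv c).support ↔ x = v ∨ (∃ i, E (i, c i) = x) ∨ x = u := by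
  rw [framePath_support, List.mem_cons, List.mem_append, List.mem_ofFn, List.mem_singleton]

theorem E_mem_framePath (c : Fin h → Bool) (i : Fin h) (b : Bool) :
    E (i, b) ∈ (framePath E hE hEv hEu huv c).support ↔ c i = b := by
  rw [mem_framePath]
  constructor
  · rintro (h1 | ⟨j, hj⟩ | h1)
    · exact absurd h1 (hEv _)
    · have h2 := hE hj
      rw [Prod.mk.injEq] at h2
      obtain ⟨rfl, h3⟩ := h2
      exact h3
    · exact absurd h1 (hEu _)
  · rintro rfl
    exact Or.inr (Or.inl ⟨i, rfl⟩)

theorem framePath_flip (c d : Fin h → Bool) :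
    (framePath E hE hEv hEu huv (fun i => xor (c i) (d i))).support =
      (framePath E hE hEv hEu huv c).support.map (flipFn E d) := by
  rw [framePath_support, framePath_support, List.map_cons, List.map_append, List.map_singleton,
    flipFn_of_not E d v hEv, flipFn_of_not E d u hEu, List.map_ofFn]
  congr 3
  funext i
  simp only [Function.comp]
  rw [flipFn_apply E hE]

end Frame

end Pool.Agent.WalkProg43
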