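import Pool.Agent.WalkProg43.Fiber2

/-! The number of closed walks with the edges of two monotone paths divides a power of two:
version for an arbitrary height function. -/

namespace Pool.Agent.WalkProg43

open SimpleGraph

variable {n : ℕ}

theorem exists_sorted (f : Fin n → ℕ) (hf : Function.Injective f) (A : Finset (Fin n)) :
    ∃ l : List (Fin n), l.Pairwise (fun x y => f x < f y) ∧ (∀ x, x ∈ l ↔ x ∈ A) ∧
      l.length = A.card := by
  classical
  induction A using Finset.induction_on_max_value f with
  | empty => exact ⟨[], by simp, by simp, by simp⟩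
  | insert a s ha hmax ih =>
    obtain ⟨l, h1, h2, h3⟩ := ih
    refine ⟨l ++ [a], ?_, ?_, ?_⟩
    · rw [List.pairwise_append]
      refine ⟨h1, by simp, ?_⟩
      intro x hx y hy
      rw [List.mem_singleton] at hy
      subst hy
      have hxs := (h2 x).1 hx
      have h4 := hmax x hxs
      have h5 : f x ≠ f y := fun h => ha (by rw [← hf h]; exact hxs)
      omega
    · intro x
      rw [List.mem_append, List.mem_singleton, h2, Finset.mem_insert, or_comm]
    · rw [List.length_append, h3, Finset.card_insert_of_notMem ha]
      simp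

section

variable {v u : Fin n} (f : Fin n → ℕ) (hf : Function.Injective f) (huv : u ≠ v)
  (hfv : ∀ x, f v ≤ f x) (hfu : ∀ x, f x ≤ f u)
include hf huv hfv hfu

/-- The monotone path through the set `A`. -/
theorem g_exists_up (A : Finset (Fin n)) (hv : v ∉ A) (hu : u ∉ A) :
    ∃ p : (⊤ : SimpleGraph (Fin n)).Walk v u,
      p.support.Pairwise (fun x y => f x < f y) ∧
        (∀ x, x ∈ p.support ↔ x = v ∨ x ∈ A ∨ x = u) := by
  obtain ⟨l, h1, h2, -⟩ := exists_sorted f hf A
  have hpw : (v :: (l ++ [u])).Pairwise (fun x y => f x < f y) := by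
    rw [List.pairwise_cons, List.pairwise_append]
    refine ⟨?_, h1, by simp, ?_⟩
    · intro x hx
      have hxv : x ≠ v := by
        rintro rfl
        rw [List.mem_append, List.mem_singleton] at hx
        rcases hx with hx | hx
        · exact hv ((h2 _).1 hx)
        · exact huv hx.symm
      have h4 : f v ≠ f x := fun h => hxv (hf h).symm
      have := hfv x
      omega
    · intro x hx y hy
      rw [List.mem_singleton] at hy
      subst hy
      have hxu : x ≠ y := by
        rintro rfl
        exact hu ((h2 _).1 hx)
      have h4 : f x ≠ f y := fun h => hxu (hf h)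
      have := hfu x
      omega
  obtain ⟨p, hp⟩ := exists_walk l v u (by
    refine hpw.imp ?_
    intro x y h hxy
    rw [hxy] at h
    exact lt_irrefl _ h)
  refine ⟨p, by rw [hp]; exact hpw, ?_⟩
  intro x
  rw [hp]
  simp [h2]

variable (U D : (⊤ : SimpleGraph (Fin n)).Walk v u)
  (hU : U.support.Pairwise (fun x y => f x < f y))
  (hD : D.support.Pairwise (fun x y => f x < f y))
include hU hD

omit huv hfv hfu in
theorem g_edges_le (p : (⊤ : SimpleGraph (Fin n)).Walk v v)
    (hp : p.edges.toFinset = (U.append D.reverse).edges.toFinset) :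
    ((U.append D.reverse).edges : Multiset (Sym2 (Fin n))) ≤ (p.edges : Multiset _) := by
  rw [toFinset_append_reverse] at hp
  rw [Multiset.le_iff_count]
  intro e
  rw [Multiset.coe_count, Multiset.coe_count, Walk.edges_append, Walk.edges_reverse,
    List.count_append, List.count_reverse, ← List.count_append]
  exact count_le f hf U D hU hD p hp e

omit huv hfv hfu in
theorem g_perm (p : (⊤ : SimpleGraph (Fin n)).Walk v v)
    (hp : p.edges.toFinset = (U.append D.reverse).edges.toFinset)
    (hlen : p.length ≤ (U.append D.reverse).length + 1) :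
    p.edges.Perm (U.append D.reverse).edges := by
  have h := g_edges_le f hf U D hU hD p hp
  obtain ⟨R, hR⟩ := Multiset.le_iff_exists_add.1 h
  have hRc : R.card ≤ 1 := by
    have h1 := congrArg Multiset.card hR
    rw [Multiset.card_add, Multiset.coe_card, Multiset.coe_card, Walk.length_edges,
      Walk.length_edges] at h1
    omega
  have hR0 : R = 0 := by
    rcases Nat.lt_or_ge R.card 1 with h1 | h1
    · exact Multiset.card_eq_zero.1 (by omega)
    · exfalso
      obtain ⟨e, rfl⟩ := Multiset.card_eq_one.1 (le_antisymm hRc h1)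
      have hep : e ∈ p.edges := by
        have : e ∈ (p.edges : Multiset (Sym2 (Fin n))) := by
          rw [hR]; simp
        simpa using this
      obtain ⟨c, hc⟩ : ∃ c, cr f c e = true := by
        have hadj := p.edges_subset_edgeSet hep
        revert hadj
        clear hep hR
        induction e with
        | _ x y =>
          intro hadj
          have hxy : x ≠ y := by simpa using hadj
          rcases lt_or_gt_of_ne (fun h => hxy (hf h)) with h | h
          · refine ⟨f x, ?_⟩
            rw [cr_mk]
            have : ¬ f y ≤ f x := by omega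
            simp [this]
          · refine ⟨f y, ?_⟩
            rw [cr_mk]
            have : ¬ f x ≤ f y := by omega
            simp [this]
      have h2 := parity f c p
      have h3 := parity f c (U.append D.reverse)
      rw [if_pos rfl] at h2 h3
      have h4 := congrArg (Multiset.countP (fun e => cr f c e = true)) hR
      rw [Multiset.countP_add, Multiset.coe_countP, Multiset.coe_countP] at h4
      have h5 : Multiset.countP (fun e => cr f c e = true) {e} = 1 := by
        rw [Multiset.countP_eq_card_filter, Multiset.filter_singleton, if_pos hc,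
          Multiset.card_singleton]
      rw [h5] at h4
      have h6 : ∀ l : List (Sym2 (Fin n)),
          l.countP (fun e => decide (cr f c e = true)) = l.countP (cr f c) := by
        intro l
        congr 1
        funext e
        simp
      rw [h6, h6] at h4
      omega
  rw [hR0, add_zero] at hR
  exact Multiset.coe_eq_coe.1 hR

theorem g_decomp (p : (⊤ : SimpleGraph (Fin n)).Walk v v)
    (hp : p.edges.Perm (U.append D.reverse).edges) :
    ∃ q1 q2 : (⊤ : SimpleGraph (Fin n)).Walk v u,
      q1.support.Pairwise (fun x y => f x < f y) ∧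
      q2.support.Pairwise (fun x y => f x < f y) ∧
      p = q1.append q2.reverse ∧ (q1.edges ++ q2.edges).Perm (U.edges ++ D.edges) := by
  classical
  have hUn : ¬ U.Nil := by
    intro h
    exact huv h.eq.symm
  have hup : u ∈ p.support := by
    have h1 := (Walk.mem_support_iff_exists_mem_edges_of_not_nil hUn).1 U.end_mem_support
    obtain ⟨e, he, hue⟩ := h1
    have h2 : e ∈ p.edges := by
      rw [hp.mem_iff, Walk.edges_append]
      exact List.mem_append_left _ he
    exact Walk.mem_support_of_mem_edges h2 hue
  set q1 := p.takeUntil u hup with hq1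
  set r := p.dropUntil u hup with hr
  have hspec : q1.append r = p := p.take_spec hup
  have hcnt : ∀ c, q1.edges.countP (cr f c) + r.edges.countP (cr f c) ≤ 2 := by
    intro c
    rw [← List.countP_append, ← Walk.edges_append, hspec, hp.countP_eq, Walk.edges_append,
      Walk.edges_reverse, List.countP_append, List.countP_reverse]
    have := mono_le_one f c U hU
    have := mono_le_one f c D hD
    omega
  have hle : ∀ c, q1.edges.countP (cr f c) ≤ 1 ∧ r.edges.countP (cr f c) ≤ 1 := by
    intro c
    have h0 := hcnt c
    by_cases hc : f u ≤ c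
    · have hz : ∀ l : List (Sym2 (Fin n)), l.countP (cr f c) = 0 := by
        intro l
        rw [List.countP_eq_zero]
        intro e _
        induction e with
        | _ x y =>
          rw [cr_mk]
          have h1 := (hfu x).trans hc
          have h2 := (hfu y).trans hc
          simp [h1, h2]
      rw [hz, hz]
      omega
    · by_cases h3 : f v ≤ c
      · have h1 := parity f c q1
        have h2 := parity f c r
        generalize q1.edges.countP (cr f c) = k1 at h0 h1 ⊢
        generalize r.edges.countP (cr f c) = k2 at h0 h2 ⊢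
        simp only [hc, h3, decide_true, decide_false] at h1 h2
        simp at h1 h2
        omega
      · have hz : ∀ l : List (Sym2 (Fin n)), l.countP (cr f c) = 0 := by
          intro l
          rw [List.countP_eq_zero]
          intro e _
          induction e with
          | _ x y =>
            rw [cr_mk]
            have h1 : ¬ f x ≤ c := fun h => h3 ((hfv x).trans h)
            have h2 : ¬ f y ≤ c := fun h => h3 ((hfv y).trans h)
            simp [h1, h2]
        rw [hz, hz]
        omega
  refine ⟨q1, r.reverse, ?_, ?_, ?_, ?_⟩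
  · exact mono_of_le_one _ hf q1 hfu fun c => (hle c).1
  · refine mono_of_le_one _ hf r.reverse hfu fun c => ?_
    rw [Walk.edges_reverse, List.countP_reverse]
    exact (hle c).2
  · rw [Walk.reverse_reverse]
    exact hspec.symm
  · rw [Walk.edges_reverse]
    refine ((List.reverse_perm _).append_left _).trans ?_
    rw [← Walk.edges_append, hspec]
    refine hp.trans ?_
    rw [Walk.edges_append, Walk.edges_reverse]
    exact (List.reverse_perm _).append_left _

omit huv hfv hfu in
theorem g_ind_sum (q1 q2 : (⊤ : SimpleGraph (Fin n)).Walk v u)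
    (h1 : q1.support.Pairwise (fun x y => f x < f y))
    (h2 : q2.support.Pairwise (fun x y => f x < f y))
    (hperm : (q1.edges ++ q2.edges).Perm (U.edges ++ D.edges)) (x : Fin n) :
    (if x ∈ q1.support then 1 else 0) + (if x ∈ q2.support then 1 else 0) =
      (if x ∈ U.support then 1 else 0) + (if x ∈ D.support then (1 : ℕ) else 0) := by
  by_cases hx : x = v
  · subst hx
    simp
  · rw [ind_eq _ q1 h1 x hx, ind_eq _ q2 h2 x hx, ind_eq _ U hU x hx, ind_eq _ D hD x hx,
      ← List.count_append, ← List.count_append, map_upper _ hf q1 h1,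
      map_upper _ hf q2 h2, map_upper _ hf U hU,
      map_upper _ hf D hD, ← List.map_append, ← List.map_append]
    exact (hperm.map _).count_eq x

omit huv hfv hfu hU hD in
theorem g_count_edges (q : (⊤ : SimpleGraph (Fin n)).Walk v u)
    (h : q.support.Pairwise (fun x y => f x < f y)) (x y : Fin n)
    (hxy : f x < f y) [Decidable (Con f (fun z => z ∈ q.support) x y)] :
    q.edges.count s(x, y) =
      if Con f (fun z => z ∈ q.support) x y then 1 else 0 := by
  rw [(isPath_of_mono _ q h).isTrail.edges_nodup.count]
  simp only [mem_edges_iff _ hf q h hxy]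

omit huv hfv hfu in
theorem g_con_sum (q1 q2 : (⊤ : SimpleGraph (Fin n)).Walk v u)
    (h1 : q1.support.Pairwise (fun x y => f x < f y))
    (h2 : q2.support.Pairwise (fun x y => f x < f y))
    (hperm : (q1.edges ++ q2.edges).Perm (U.edges ++ D.edges)) (x y : Fin n)
    (hxy : f x < f y)
    [Decidable (Con f (fun z => z ∈ q1.support) x y)]
    [Decidable (Con f (fun z => z ∈ q2.support) x y)]
    [Decidable (Con f (fun z => z ∈ U.support) x y)]
    [Decidable (Con f (fun z => z ∈ D.support) x y)] :
    (if Con f (fun z => z ∈ q1.support) x y then 1 else 0) +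
      (if Con f (fun z => z ∈ q2.support) x y then 1 else 0) =
    (if Con f (fun z => z ∈ U.support) x y then 1 else 0) +
      (if Con f (fun z => z ∈ D.support) x y then (1 : ℕ) else 0) := by
  rw [← g_count_edges f hf q1 h1 x y hxy, ← g_count_edges f hf q2 h2 x y hxy,
    ← g_count_edges f hf U hU x y hxy,
    ← g_count_edges f hf D hD x y hxy, ← List.count_append, ← List.count_append]
  exact hperm.count_eq _

omit huv hfv hfu in
theorem g_perm_of_con (q1 q2 : (⊤ : SimpleGraph (Fin n)).Walk v u)
    (h1 : q1.support.Pairwise (fun x y => f x < f y))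
    (h2 : q2.support.Pairwise (fun x y => f x < f y))
    (hcon : ∀ x y, f x < f y →
      ∀ [Decidable (Con f (fun z => z ∈ q1.support) x y)]
    [Decidable (Con f (fun z => z ∈ q2.support) x y)]
    [Decidable (Con f (fun z => z ∈ U.support) x y)]
    [Decidable (Con f (fun z => z ∈ D.support) x y)],
    (if Con f (fun z => z ∈ q1.support) x y then 1 else 0) +
      (if Con f (fun z => z ∈ q2.support) x y then 1 else 0) =
    (if Con f (fun z => z ∈ U.support) x y then 1 else 0) +
      (if Con f (fun z => z ∈ D.support) x y then (1 : ℕ) else 0)) :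
    (q1.edges ++ q2.edges).Perm (U.edges ++ D.edges) := by
  classical
  have key : ∀ x y, f x < f y →
      (q1.edges ++ q2.edges).count s(x, y) = (U.edges ++ D.edges).count s(x, y) := by
    intro x y hxy
    rw [List.count_append, List.count_append, g_count_edges f hf q1 h1 x y hxy,
      g_count_edges f hf q2 h2 x y hxy, g_count_edges f hf U hU x y hxy,
      g_count_edges f hf D hD x y hxy]
    exact hcon x y hxy
  rw [List.perm_iff_count]
  intro e
  induction e with
  | _ x y =>
    rcases lt_trichotomy (f x) (f y) with h3 | h3 | h3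
    · exact key x y h3
    · have hxy := hf h3
      subst hxy
      have hz : ∀ q : (⊤ : SimpleGraph (Fin n)).Walk v u, q.edges.count s(x, x) = 0 := by
        intro q
        rw [List.count_eq_zero]
        intro hh
        exact absurd (SimpleGraph.mem_edgeSet _ |>.1 (q.edges_subset_edgeSet hh))
          (SimpleGraph.irrefl _)
      rw [List.count_append, List.count_append, hz, hz, hz, hz]
    · rw [Sym2.eq_swap]
      exact key y x h3

/-- The number of closed walks of length at most `n` with the edge set of `U D⁻¹` divides `2 ^ n`,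
when `U D⁻¹` has length `n` or `n - 1`. -/
theorem g_fiber_card_dvd (hlen : (U.append D.reverse).length ≤ n)
    (hlen' : n ≤ (U.append D.reverse).length + 1) :
    ((allWalks n v).filter (fun p => p.edges.toFinset =
      (U.append D.reverse).edges.toFinset)).card ∣ 2 ^ n := by
  classical
  set Z := (allWalks n v).filter (fun p => p.edges.toFinset =
      (U.append D.reverse).edges.toFinset) with hZ
  have hZp : ∀ p ∈ Z, p.edges.Perm (U.append D.reverse).edges := by
    intro p hp
    rw [hZ, Finset.mem_filter, mem_allWalks] at hp
    exact g_perm f hf U D hU hD p hp.2 (hp.1.trans hlen')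
  let H : AddSubgroup (Fin n → ZMod 2) :=
    { carrier := {g | (∀ x, (x ∈ U.support ↔ x ∈ D.support) → g x = 0) ∧
        ∀ x y, ¬ (x ∈ U.support ↔ x ∈ D.support) → ¬ (y ∈ U.support ↔ y ∈ D.support) →
          f x < f y →
          (∀ z, z ∈ U.support → z ∈ D.support → ¬ (f x < f z ∧ f z < f y)) →
          g x = g y}
      zero_mem' := ⟨fun _ _ => rfl, fun _ _ _ _ _ _ => rfl⟩
      add_mem' := by
        rintro g h ⟨h1, h2⟩ ⟨h3, h4⟩
        refine ⟨fun x hx => ?_, fun x y ha hb hc hd => ?_⟩
        · rw [Pi.add_apply, h1 x hx, h3 x hx, add_zero]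
        · rw [Pi.add_apply, Pi.add_apply, h2 x y ha hb hc hd, h4 x y ha hb hc hd]
      neg_mem' := by
        rintro g ⟨h1, h2⟩
        refine ⟨fun x hx => ?_, fun x y ha hb hc hd => ?_⟩
        · rw [Pi.neg_apply, h1 x hx, neg_zero]
        · rw [Pi.neg_apply, Pi.neg_apply, h2 x y ha hb hc hd] }
  have hdec : ∀ p : {p // p ∈ Z}, ∃ q1 q2 : (⊤ : SimpleGraph (Fin n)).Walk v u,
      q1.support.Pairwise (fun x y => f x < f y) ∧
      q2.support.Pairwise (fun x y => f x < f y) ∧
      p.1 = q1.append q2.reverse ∧ (q1.edges ++ q2.edges).Perm (U.edges ++ D.edges) :=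
    fun p => g_decomp f hf huv hfv hfu U D hU hD p.1 (hZp p.1 p.2)
  choose q1 q2 h1 h2 h3 h4 using hdec
  have hmem : ∀ p : {p // p ∈ Z}, (fun x => ((if x ∈ (q1 p).support then 1 else 0) +
      (if x ∈ U.support then 1 else 0) : ZMod 2)) ∈ H := by
    intro p
    have hs := g_ind_sum f hf U D hU hD (q1 p) (q2 p) (h1 p) (h2 p) (h4 p)
    refine ⟨fun x hx => ?_, fun x y ha hb hc hd => ?_⟩
    · have h5 := hs x
      by_cases hA : x ∈ (q1 p).support <;> by_cases hB : x ∈ (q2 p).support <;>
        by_cases hS : x ∈ U.support <;> by_cases hT : x ∈ D.support <;>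
        simp [hA, hB, hS, hT] at h5 hx ⊢
      exact CharTwo.add_self_eq_zero 1
    · have h6 := swap_of_con f (fun z => z ∈ (q1 p).support) (fun z => z ∈ (q2 p).support)
        (fun z => z ∈ U.support) (fun z => z ∈ D.support) hs (by
          intro x y hxy i1 i2 i3 i4
          exact g_con_sum f hf U D hU hD (q1 p) (q2 p) (h1 p) (h2 p) (h4 p) x y hxy)
        (f y - f x) x y rfl ha hb hc hd
      by_cases hA : x ∈ (q1 p).support <;> by_cases hB : y ∈ (q1 p).support <;>
        by_cases hS : x ∈ U.support <;> by_cases hT : y ∈ U.support <;>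
        simp [hA, hB, hS, hT] at h6 ⊢
      · exact (CharTwo.add_self_eq_zero 1)
      · exact (CharTwo.add_self_eq_zero 1).symm
  let Φ : {p // p ∈ Z} → H := fun p => ⟨_, hmem p⟩
  have hinj : Function.Injective Φ := by
    intro p p' hpp
    have h5 : ∀ x, x ∈ (q1 p).support ↔ x ∈ (q1 p').support := by
      intro x
      have h6 := congrFun (congrArg Subtype.val hpp) x
      have h7 : ((if x ∈ (q1 p).support then 1 else 0) + (if x ∈ U.support then 1 else 0) :
          ZMod 2) = (if x ∈ (q1 p').support then 1 else 0) +
            (if x ∈ U.support then 1 else 0) := h6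
      have h8 := add_right_cancel h7
      by_cases hA : x ∈ (q1 p).support <;> by_cases hB : x ∈ (q1 p').support <;>
        simp [hA, hB] at h8 ⊢
    have h6 : q1 p = q1 p' := mono_eq f hf _ _ (h1 p) (h1 p') h5
    have h7 : (q2 p).edges.Perm (q2 p').edges := by
      have h8 := (h4 p).trans (h4 p').symm
      rw [h6] at h8
      exact (List.perm_append_left_iff _).1 h8
    have h8 : q2 p = q2 p' := path_eq _ _ (isPath_of_mono _ _ (h2 p)) (isPath_of_mono _ _ (h2 p'))
      fun e => h7.mem_iff
    apply Subtype.ext
    rw [h3 p, h3 p', h6, h8]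
  have hsurj : Function.Surjective Φ := by
    rintro ⟨g, hg1, hg2⟩
    have hz2 : ∀ z : ZMod 2, z = 0 ∨ z = 1 := by decide
    have h11 : (1 : ZMod 2) + 1 = 0 := by decide
    obtain ⟨A, hA⟩ : ∃ A : Finset (Fin n), A = Finset.univ.filter (fun x => x ≠ v ∧ x ≠ u ∧
      ((if x ∈ U.support then 1 else 0) + g x : ZMod 2) = 1) := ⟨_, rfl⟩
    obtain ⟨B, hB⟩ : ∃ B : Finset (Fin n), B = Finset.univ.filter (fun x => x ≠ v ∧ x ≠ u ∧
      ((if x ∈ D.support then 1 else 0) + g x : ZMod 2) = 1) := ⟨_, rfl⟩
    obtain ⟨qA, hqA1, hqA2⟩ := g_exists_up f hf huv hfv hfu A (by simp [hA]) (by simp [hA])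
    obtain ⟨qB, hqB1, hqB2⟩ := g_exists_up f hf huv hfv hfu B (by simp [hB]) (by simp [hB])
    have hvU : v ∈ U.support := U.start_mem_support
    have hvD : v ∈ D.support := D.start_mem_support
    have huU : u ∈ U.support := U.end_mem_support
    have huD : u ∈ D.support := D.end_mem_support
    have hgv : g v = 0 := hg1 v (by simp)
    have hgu : g u = 0 := hg1 u (by simp)
    have hmA : ∀ x, x ∈ qA.support ↔ ((if x ∈ U.support then 1 else 0) + g x : ZMod 2) = 1 := by
      intro x
      rw [hqA2 x, hA, Finset.mem_filter]
      by_cases hxv : x = v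
      · subst hxv; simp [hgv]
      · by_cases hxu : x = u
        · subst hxu; simp [hgu]
        · simp [hxv, hxu]
    have hmB : ∀ x, x ∈ qB.support ↔ ((if x ∈ D.support then 1 else 0) + g x : ZMod 2) = 1 := by
      intro x
      rw [hqB2 x, hB, Finset.mem_filter]
      by_cases hxv : x = v
      · subst hxv; simp [hgv]
      · by_cases hxu : x = u
        · subst hxu; simp [hgu]
        · simp [hxv, hxu]
    have hsum : ∀ x, (if x ∈ qA.support then 1 else 0) + (if x ∈ qB.support then 1 else 0) =
        (if x ∈ U.support then 1 else 0) + (if x ∈ D.support then (1 : ℕ) else 0) := by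
      intro x
      simp only [hmA x, hmB x]
      have h0 := hg1 x
      by_cases hS : x ∈ U.support <;> by_cases hT : x ∈ D.support <;>
        rcases hz2 (g x) with h | h <;> simp [hS, hT, h, h11] at h0 ⊢
    have hperm : (qA.edges ++ qB.edges).Perm (U.edges ++ D.edges) := by
      refine g_perm_of_con f hf U D hU hD qA qB hqA1 hqB1 ?_
      intro x y hxy i1 i2 i3 i4
      refine con_of_swap f (fun z => z ∈ qA.support) (fun z => z ∈ qB.support)
        (fun z => z ∈ U.support) (fun z => z ∈ D.support) hsum hf ?_ x y
      intro x y ha hb hc hd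
      have h5 := hg2 x y ha hb hc hd
      simp only [hmA x, hmA y, h5]
      by_cases hS : x ∈ U.support <;> by_cases hT : y ∈ U.support <;>
        rcases hz2 (g y) with h | h <;> simp [hS, hT, h, h11]
    have hpZ : qA.append qB.reverse ∈ Z := by
      have hperm' : (qA.append qB.reverse).edges.Perm (U.append D.reverse).edges := by
        rw [Walk.edges_append, Walk.edges_append, Walk.edges_reverse, Walk.edges_reverse]
        refine ((List.reverse_perm _).append_left _).trans (hperm.trans ?_)
        exact ((List.reverse_perm _).append_left _).symm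
      rw [hZ, Finset.mem_filter, mem_allWalks]
      refine ⟨?_, ?_⟩
      · rw [← Walk.length_edges, hperm'.length_eq, Walk.length_edges]
        exact hlen
      · exact List.toFinset_eq_of_perm _ _ hperm'
    refine ⟨⟨_, hpZ⟩, ?_⟩
    have hq1 : q1 ⟨_, hpZ⟩ = qA :=
      (append_uniq _ _ _ _ (isPath_of_mono _ _ hqA1) (isPath_of_mono _ _ (h1 ⟨_, hpZ⟩))
        (h3 ⟨_, hpZ⟩)).symm
    apply Subtype.ext
    funext x
    show ((if x ∈ (q1 ⟨_, hpZ⟩).support then 1 else 0) +
      (if x ∈ U.support then 1 else 0) : ZMod 2) = g x
    rw [hq1]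
    simp only [hmA x]
    by_cases hS : x ∈ U.support <;> rcases hz2 (g x) with h | h <;> simp [hS, h, h11]
  have hcard : Z.card = Nat.card H := by
    rw [← Nat.card_congr (Equiv.ofBijective Φ ⟨hinj, hsurj⟩)]
    simp
  rw [hcard]
  have h5 := AddSubgroup.card_addSubgroup_dvd_card H
  have h6 : Nat.card (Fin n → ZMod 2) = 2 ^ n := by
    simp
  rwa [h6] at h5

end

end Pool.Agent.WalkProg43
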