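import Pool.Agent.WalkProg43.GMain

/-! Size bounds for programs that are invariant under relabelling the vertices. -/

namespace Pool.Agent.WalkProg43

open SimpleGraph

variable {n : ℕ} {v : Fin n} {F : Type} [Field F]

theorem relabel_isCycle (σ : Equiv.Perm (Fin n)) (p q : (⊤ : SimpleGraph (Fin n)).Walk v v)
    (h : q.support = p.support.map σ) : q.IsCycle ↔ p.IsCycle := by
  have hlen : q.length = p.length := by
    have h1 := congrArg List.length h
    rw [List.length_map, Walk.length_support, Walk.length_support] at h1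
    omega
  have key : ∀ r : (⊤ : SimpleGraph (Fin n)).Walk v v, 3 ≤ r.length →
      (r.tail.IsPath ↔ r.support.tail.Nodup) := by
    intro r hr
    rw [Walk.isPath_def, Walk.support_tail_of_not_nil]
    rw [Walk.not_nil_iff_lt_length]
    omega
  rw [Walk.isCycle_iff_isPath_tail_and_le_length, Walk.isCycle_iff_isPath_tail_and_le_length, hlen]
  constructor
  · rintro ⟨h1, h2⟩
    rw [key q (by omega), h, ← List.map_tail, List.nodup_map_iff σ.injective] at h1
    exact ⟨(key p h2).2 h1, h2⟩
  · rintro ⟨h1, h2⟩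
    rw [key p h2] at h1
    refine ⟨(key q (by omega)).2 ?_, h2⟩
    rw [h, ← List.map_tail, List.nodup_map_iff σ.injective]
    exact h1

theorem relabelInvariant_heldKarp : (heldKarp n v F).RelabelInvariant := by
  classical
  intro σ p q h
  rw [weight_heldKarp, weight_heldKarp]
  simp only [relabel_isCycle σ p q h]

theorem two_pow_le (h2 : (2 : F) ≠ 0) (hn : 4 ≤ n) (P : WalkProgram n v F)
    (hinv : P.RelabelInvariant)
    (hcount : ∀ G : SimpleGraph (Fin n), P.output G = (cycleCount G v : F)) :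
    2 ^ (n - 2) ≤ n * P.size := by
  obtain ⟨h, hh, hn1, hn2⟩ : ∃ h, 1 ≤ h ∧ 2 * h + 2 ≤ n ∧ n ≤ 2 * h + 3 :=
    ⟨(n - 2) / 2, by omega, by omega, by omega⟩
  have h1 : (n - 1) * catalan h ≤ P.size := by
    unfold WalkProgram.size
    have hc : (Finset.univ.erase v : Finset (Fin n)).card = n - 1 := by simp
    have h3 := Finset.card_nsmul_le_sum (Finset.univ.erase v) (fun a => P.nodes (h + 1) a)
      (catalan h) (by
        intro a ha
        exact catalan_le_nodes h2 P hinv hcount (Finset.ne_of_mem_erase ha) h hh hn1 hn2)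
    rw [hc, smul_eq_mul] at h3
    refine h3.trans ?_
    exact Finset.single_le_sum (f := fun t => ∑ a ∈ Finset.univ.erase v, P.nodes t a)
      (fun t _ => Nat.zero_le _) (Finset.mem_Icc.2 ⟨by omega, by omega⟩)
  have h3 : 4 ^ h ≤ 2 * h * h.centralBinom :=
    Nat.four_pow_le_two_mul_self_mul_centralBinom h (by omega)
  rw [← succ_mul_catalan_eq_centralBinom] at h3
  have h4 : 2 ^ (n - 2) = 4 ^ h * 2 ^ (n - 2 - 2 * h) := by
    rw [show (4 : ℕ) = 2 ^ 2 by norm_num, ← pow_mul, ← pow_add]
    congr 1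
    omega
  rcases Nat.lt_or_ge n (2 * h + 3) with h5 | h5
  · have h6 : n = 2 * h + 2 := by omega
    subst h6
    rw [h4, show 2 * h + 2 - 2 - 2 * h = 0 by omega, pow_zero, mul_one]
    have h7 : 2 * h + 2 - 1 = 2 * h + 1 := by omega
    rw [h7] at h1
    calc 4 ^ h ≤ 2 * h * ((h + 1) * catalan h) := h3
      _ ≤ (2 * h + 2) * ((2 * h + 1) * catalan h) := by
        have : 2 * h * (h + 1) ≤ (2 * h + 2) * (2 * h + 1) := by nlinarith
        calc 2 * h * ((h + 1) * catalan h) = (2 * h * (h + 1)) * catalan h := by ring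
          _ ≤ ((2 * h + 2) * (2 * h + 1)) * catalan h := Nat.mul_le_mul_right _ this
          _ = _ := by ring
      _ ≤ (2 * h + 2) * P.size := Nat.mul_le_mul_left _ h1
  · have h6 : n = 2 * h + 3 := by omega
    subst h6
    rw [h4, show 2 * h + 3 - 2 - 2 * h = 1 by omega, pow_one]
    have h7 : 2 * h + 3 - 1 = 2 * h + 2 := by omega
    rw [h7] at h1
    calc 4 ^ h * 2 ≤ 2 * h * ((h + 1) * catalan h) * 2 := Nat.mul_le_mul_right _ h3
      _ ≤ (2 * h + 3) * ((2 * h + 2) * catalan h) := by
        have : 2 * h * (h + 1) * 2 ≤ (2 * h + 3) * (2 * h + 2) := by nlinarith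
        calc 2 * h * ((h + 1) * catalan h) * 2 = (2 * h * (h + 1) * 2) * catalan h := by ring
          _ ≤ ((2 * h + 3) * (2 * h + 2)) * catalan h := Nat.mul_le_mul_right _ this
          _ = _ := by ring
      _ ≤ (2 * h + 3) * P.size := Nat.mul_le_mul_left _ h1

end Pool.Agent.WalkProg43
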