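import Pool.Agent.WalkProg43.Frame
import Pool.Agent.WalkProg43.Ballot

/-! The lower bound for programs that are invariant under relabelling the vertices. -/

namespace Pool.Agent.WalkProg43

open SimpleGraph

variable {n : ℕ} {v : Fin n} {F : Type} [Field F]

/-- The sign of a choice. -/
def sgn (F : Type) [Field F] {h : ℕ} (c : Fin h → Bool) : F := ∏ i, (if c i then -1 else 1)

theorem sgn_flip {h : ℕ} (c : Fin h → Bool) (i : Fin h) :
    sgn F (fun j => xor (c j) (decide (j = i))) = - sgn F c := by
  unfold sgn
  rw [← Finset.mul_prod_erase _ _ (Finset.mem_univ i),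
    ← Finset.mul_prod_erase Finset.univ (fun j => if c j = true then (-1 : F) else 1)
      (Finset.mem_univ i)]
  have h1 : ∏ x ∈ Finset.univ.erase i, (if (xor (c x) (decide (x = i))) = true then (-1 : F) else 1)
      = ∏ x ∈ Finset.univ.erase i, (if c x = true then (-1 : F) else 1) := by
    refine Finset.prod_congr rfl fun x hx => ?_
    have hxi : x ≠ i := Finset.ne_of_mem_erase hx
    simp [hxi]
  rw [h1]
  cases hci : c i <;> simp [hci]

theorem sgn_ne_zero {h : ℕ} (c : Fin h → Bool) : sgn F c ≠ 0 := by
  unfold sgn
  rw [Finset.prod_ne_zero_iff]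
  intro i _
  split_ifs <;> simp

section Frame

variable {h : ℕ} {u : Fin n} (E : Fin h × Bool → Fin n) (hE : Function.Injective E)
  (hEv : ∀ k, E k ≠ v) (hEu : ∀ k, E k ≠ u) (huv : u ≠ v)

theorem sum_sgn_eq_zero (P : WalkProgram n v F) (hinv : P.RelabelInvariant)
    (Q : (⊤ : SimpleGraph (Fin n)).Walk u v) (i : Fin h) (hQ : ∀ b, E (i, b) ∉ Q.support) :
    ∑ c : Fin h → Bool, sgn F c * P.weight ((framePath E hE hEv hEu huv c).append Q) = 0 := by
  refine Finset.sum_involution (fun c _ => fun j => xor (c j) (decide (j = i))) ?_ ?_ ?_ ?_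
  · intro c _
    have hw : P.weight ((framePath E hE hEv hEu huv (fun j => xor (c j) (decide (j = i)))).append Q)
        = P.weight ((framePath E hE hEv hEu huv c).append Q) := by
      refine weight_of_map P hinv (flipFn E (fun j => decide (j = i))) (flipFn_injective E hE _)
        _ _ (support_append_map _ _ _ _ _ (framePath_flip E hE hEv hEu huv c _) ?_)
      have h1 : Q.support.map (flipFn E (fun j => decide (j = i))) = Q.support.map id := by
        refine List.map_congr_left fun x hx => ?_
        by_cases hx' : ∃ k, E k = x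
        · obtain ⟨⟨j, b⟩, rfl⟩ := hx'
          rw [flipFn_apply E hE]
          have hji : j ≠ i := by
            rintro rfl
            exact hQ b hx
          simp [hji]
        · push Not at hx'
          exact flipFn_of_not E _ x hx'
      rw [h1, List.map_id]
    rw [hw, sgn_flip]
    ring
  · intro c _ _ hcc
    have h1 := congrFun hcc i
    simp at h1
  · intro c _
    exact Finset.mem_univ _
  · intro c _
    funext j
    simp

/-- Relabelling within the fibre. -/
theorem weight_fiber (P : WalkProgram n v F) (hinv : P.RelabelInvariant) (c : Fin h → Bool)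
    (p : (⊤ : SimpleGraph (Fin n)).Walk v v)
    (hp : p.edges.Perm ((framePath E hE hEv hEu huv c).append
      (framePath E hE hEv hEu huv (fun _ => false)).reverse).edges) :
    P.weight p = P.weight ((framePath E hE hEv hEu huv c).append
      (framePath E hE hEv hEu huv (fun _ => false)).reverse) := by
  classical
  set f := hgt E v u with hf
  have hfi : Function.Injective f := hgt_injective E hE hEv hEu huv
  set U := framePath E hE hEv hEu huv c with hU
  set D := framePath E hE hEv hEu huv (fun _ => false) with hD
  have hUm : U.support.Pairwise (fun x y => f x < f y) := framePath_mono E hE hEv hEu huv c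
  have hDm : D.support.Pairwise (fun x y => f x < f y) := framePath_mono E hE hEv hEu huv _
  obtain ⟨q1, q2, h1, h2, h3, h4⟩ := g_decomp f hfi huv (hgt_ge E) (hgt_le E hE hEv hEu huv)
    U D hUm hDm p hp
  have hs := g_ind_sum f hfi U D hUm hDm q1 q2 h1 h2 h4
  have hlt : ∀ i, f (E (i, false)) < f (E (i, true)) := by
    intro i
    rw [hf, hgt_E E hE hEv hEu, hgt_E E hE hEv hEu]
    simp
  have hnb : ∀ q : (⊤ : SimpleGraph (Fin n)).Walk v u,
      q.support.Pairwise (fun x y => f x < f y) → (∀ e ∈ q.edges, e ∈ U.edges ∨ e ∈ D.edges) →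
      ∀ i, ¬ (E (i, false) ∈ q.support ∧ E (i, true) ∈ q.support) := by
    rintro q hq hqe i ⟨ha, hb⟩
    have hcon : s(E (i, false), E (i, true)) ∈ q.edges := by
      rw [mem_edges_iff f hfi q hq (hlt i)]
      refine ⟨ha, hb, hlt i, ?_⟩
      rintro z - ⟨h5, h6⟩
      rw [hf, hgt_E E hE hEv hEu] at h5 h6
      simp at h5 h6
      omega
    rcases hqe _ hcon with h5 | h5
    · have h6 := (E_mem_framePath E hE hEv hEu huv c i false).1
        (U.fst_mem_support_of_mem_edges h5)
      have h7 := (E_mem_framePath E hE hEv hEu huv c i true).1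
        (U.snd_mem_support_of_mem_edges h5)
      rw [h6] at h7
      exact absurd h7 (by simp)
    · have h7 := (E_mem_framePath E hE hEv hEu huv (fun _ => false) i true).1
        (D.snd_mem_support_of_mem_edges h5)
      exact absurd h7 (by simp)
  have hnb1 := hnb q1 h1 (fun e he => by
    have := (h4.mem_iff (a := e)).1 (List.mem_append_left _ he)
    exact List.mem_append.1 this)
  have hnb2 := hnb q2 h2 (fun e he => by
    have := (h4.mem_iff (a := e)).1 (List.mem_append_right _ he)
    exact List.mem_append.1 this)
  obtain ⟨c1, hc1⟩ : ∃ c1 : Fin h → Bool, ∀ i, c1 i = decide (E (i, true) ∈ q1.support) :=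
    ⟨_, fun _ => rfl⟩
  obtain ⟨c2, hc2⟩ : ∃ c2 : Fin h → Bool, ∀ i, c2 i = decide (E (i, true) ∈ q2.support) :=
    ⟨_, fun _ => rfl⟩
  have key : ∀ i, (E (i, false) ∈ q1.support ↔ c1 i = false) ∧
      (E (i, false) ∈ q2.support ↔ c2 i = false) ∧ c1 i = xor (c i) (c2 i) := by
    intro i
    have h5 := hs (E (i, false))
    have h6 := hs (E (i, true))
    simp only [hU, hD, E_mem_framePath] at h5 h6
    have h7 := hnb1 i
    have h8 := hnb2 i
    rw [hc1 i, hc2 i]
    by_cases ha0 : E (i, false) ∈ q1.support <;> by_cases ha1 : E (i, true) ∈ q1.support <;>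
      by_cases hb0 : E (i, false) ∈ q2.support <;> by_cases hb1 : E (i, true) ∈ q2.support <;>
      cases hci : c i <;>
      simp [ha0, ha1, hb0, hb1, hci] at h5 h6 h7 h8 ⊢
  have hmem1 : ∀ i b, E (i, b) ∈ q1.support ↔ c1 i = b := by
    intro i b
    cases b
    · exact (key i).1
    · rw [hc1 i, decide_eq_true_eq]
  have hmem2 : ∀ i b, E (i, b) ∈ q2.support ↔ c2 i = b := by
    intro i b
    cases b
    · exact (key i).2.1
    · rw [hc2 i, decide_eq_true_eq]
  have hout : ∀ x, x ≠ v → x ≠ u → (∀ k, E k ≠ x) → x ∉ q1.support ∧ x ∉ q2.support := by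
    intro x hxv hxu hxE
    have h5 := hs x
    have h6 : x ∉ U.support := by
      rw [hU, mem_framePath]
      rintro (h | ⟨i, h⟩ | h)
      · exact hxv h
      · exact hxE _ h
      · exact hxu h
    have h7 : x ∉ D.support := by
      rw [hD, mem_framePath]
      rintro (h | ⟨i, h⟩ | h)
      · exact hxv h
      · exact hxE _ h
      · exact hxu h
    by_cases hA : x ∈ q1.support <;> by_cases hB : x ∈ q2.support <;> simp [hA, hB, h6, h7] at h5 ⊢
  have hpath : ∀ (q : (⊤ : SimpleGraph (Fin n)).Walk v u) (c' : Fin h → Bool),
      q.support.Pairwise (fun x y => f x < f y) → (∀ i b, E (i, b) ∈ q.support ↔ c' i = b) →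
      (∀ x, x ≠ v → x ≠ u → (∀ k, E k ≠ x) → x ∉ q.support) →
      q = framePath E hE hEv hEu huv c' := by
    intro q c' hq hm ho
    refine mono_eq f hfi q _ hq (framePath_mono E hE hEv hEu huv c') fun x => ?_
    by_cases hxv : x = v
    · subst hxv
      simp
    · by_cases hxu : x = u
      · subst hxu
        simp
      · by_cases hx : ∃ k, E k = x
        · obtain ⟨⟨i, b⟩, rfl⟩ := hx
          rw [hm, E_mem_framePath]
        · push Not at hx
          constructor
          · intro h
            exact absurd h (ho x hxv hxu hx)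
          · intro h
            rw [mem_framePath] at h
            rcases h with h | ⟨i, h⟩ | h
            · exact absurd h hxv
            · exact absurd h (hx _)
            · exact absurd h hxu
  have hq1 := hpath q1 c1 h1 hmem1 (fun x a b c => (hout x a b c).1)
  have hq2 := hpath q2 c2 h2 hmem2 (fun x a b c => (hout x a b c).2)
  have hc1' : c1 = fun i => xor (c i) (c2 i) := funext fun i => (key i).2.2
  have hs1 : q1.support = U.support.map (flipFn E c2) := by
    rw [hq1, hc1']
    exact framePath_flip E hE hEv hEu huv c c2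
  have hs2 : q2.support = D.support.map (flipFn E c2) := by
    rw [hq2]
    have := framePath_flip E hE hEv hEu huv (fun _ => false) c2
    simpa using this
  rw [h3]
  refine weight_of_map P hinv (flipFn E c2) (flipFn_injective E hE c2) _ _
    (support_append_map _ _ _ _ _ hs1 ?_)
  rw [Walk.support_reverse, Walk.support_reverse, hs2, List.map_reverse]

/-- The weight of the closed walk through two transversals. -/
theorem weight_mul (P : WalkProgram n v F) (hinv : P.RelabelInvariant)
    (hcount : ∀ G : SimpleGraph (Fin n), P.output G = (cycleCount G v : F))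
    (hn : 2 * h + 2 ≤ n) (hn' : n ≤ 2 * h + 3) (c : Fin h → Bool) :
    ∃ N : ℕ, N ∣ 2 ^ n ∧ (N : F) * P.weight ((framePath E hE hEv hEu huv c).append
      (framePath E hE hEv hEu huv (fun _ => false)).reverse) =
      if ((framePath E hE hEv hEu huv c).append
      (framePath E hE hEv hEu huv (fun _ => false)).reverse).edges.toFinset ∈ allCycles n v
        then 1 else 0 := by
  classical
  set U := framePath E hE hEv hEu huv c with hU
  set D := framePath E hE hEv hEu huv (fun _ => false) with hD
  have hUm := framePath_mono E hE hEv hEu huv c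
  have hDm := framePath_mono E hE hEv hEu huv (fun _ => false)
  have hlen : (U.append D.reverse).length = 2 * h + 2 := by
    rw [Walk.length_append, Walk.length_reverse, hU, hD, framePath_length, framePath_length]
    ring
  have hfib := fiber_sum P hcount (U.append D.reverse).edges.toFinset
  refine ⟨((allWalks n v).filter (fun p => p.edges.toFinset =
    (U.append D.reverse).edges.toFinset)).card, ?_, ?_⟩
  · exact g_fiber_card_dvd (hgt E v u) (hgt_injective E hE hEv hEu huv) huv (hgt_ge E)
      (hgt_le E hE hEv hEu huv) U D hUm hDm (by omega) (by omega)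
  · rw [← hfib]
    have hc : ∀ p ∈ (allWalks n v).filter (fun p => p.edges.toFinset =
        (U.append D.reverse).edges.toFinset), P.weight p = P.weight (U.append D.reverse) := by
      intro p hp
      rw [Finset.mem_filter, mem_allWalks] at hp
      exact weight_fiber E hE hEv hEu huv P hinv c p
        (g_perm (hgt E v u) (hgt_injective E hE hEv hEu huv) U D hUm hDm p hp.2 (by omega))
    rw [Finset.sum_congr rfl hc, Finset.sum_const, nsmul_eq_mul]

theorem not_cycle (c : Fin h → Bool) (i : Fin h) (hi : c i = false) :
    ((framePath E hE hEv hEu huv c).append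
      (framePath E hE hEv hEu huv (fun _ => false)).reverse).edges.toFinset ∉ allCycles n v := by
  classical
  set U := framePath E hE hEv hEu huv c with hU
  set D := framePath E hE hEv hEu huv (fun _ => false) with hD
  have hUm := framePath_mono E hE hEv hEu huv c
  have hDm := framePath_mono E hE hEv hEu huv (fun _ => false)
  have hlen : (U.append D.reverse).length = 2 * h + 2 := by
    rw [Walk.length_append, Walk.length_reverse, hU, hD, framePath_length, framePath_length]
    ring
  intro hmem
  rw [allCycles, Finset.mem_filter] at hmem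
  obtain ⟨-, p, hpc, hpe⟩ := hmem
  have hle := g_edges_le (hgt E v u) (hgt_injective E hE hEv hEu huv) U D hUm hDm p hpe
  have hcard := Multiset.card_le_card hle
  rw [Multiset.coe_card, Multiset.coe_card, Walk.length_edges, Walk.length_edges, hlen] at hcard
  have hsub : p.support.tail.toFinset ⊆ insert v (insert u
      (Finset.univ.image (fun j => E (j, c j)) ∪
        (Finset.univ.erase i).image (fun j => E (j, false)))) := by
    intro x hx
    have hx' : x ∈ p.support := List.mem_of_mem_tail (List.mem_toFinset.1 hx)
    rw [Walk.mem_support_iff_exists_mem_edges_of_not_nil hpc.not_nil] at hx'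
    obtain ⟨e, he, hxe⟩ := hx'
    have he' : e ∈ (U.edges ++ D.edges).toFinset := by
      rw [← toFinset_append_reverse, ← hpe]
      exact List.mem_toFinset.2 he
    rw [List.mem_toFinset, List.mem_append] at he'
    simp only [Finset.mem_insert, Finset.mem_union, Finset.mem_image, Finset.mem_univ, true_and,
      Finset.mem_erase, and_true]
    rcases he' with he' | he'
    · have := (mem_framePath E hE hEv hEu huv c x).1 (Walk.mem_support_of_mem_edges he' hxe)
      tauto
    · have := (mem_framePath E hE hEv hEu huv (fun _ => false) x).1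
        (Walk.mem_support_of_mem_edges he' hxe)
      rcases this with h1 | ⟨j, h1⟩ | h1
      · exact Or.inl h1
      · by_cases hji : j = i
        · subst hji
          exact Or.inr (Or.inr (Or.inl ⟨j, by rw [hi]; exact h1⟩))
        · exact Or.inr (Or.inr (Or.inr ⟨j, hji, h1⟩))
      · exact Or.inr (Or.inl h1)
  have hc1 : p.support.tail.toFinset.card = p.length := by
    rw [List.toFinset_card_of_nodup hpc.support_nodup, List.length_tail, Walk.length_support]
    simp
  have hc2 := Finset.card_le_card hsub
  rw [hc1] at hc2
  have hi1 := Finset.card_insert_le v (insert u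
      (Finset.univ.image (fun j => E (j, c j)) ∪
        (Finset.univ.erase i).image (fun j => E (j, false))))
  have hi2 := Finset.card_insert_le u
      (Finset.univ.image (fun j => E (j, c j)) ∪
        (Finset.univ.erase i).image (fun j => E (j, false)))
  have hi3 := Finset.card_union_le (Finset.univ.image (fun j => E (j, c j)))
    ((Finset.univ.erase i).image (fun j => E (j, false)))
  have hi4 : (Finset.univ.image (fun j => E (j, c j))).card ≤ h := by
    refine Finset.card_image_le.trans ?_
    simp
  have hi5 : ((Finset.univ.erase i).image (fun j => E (j, false))).card ≤ h - 1 := by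
    refine Finset.card_image_le.trans ?_
    rw [Finset.card_erase_of_mem (Finset.mem_univ i)]
    simp
  have := i.isLt
  omega

theorem is_cycle (hh : 1 ≤ h) :
    ((framePath E hE hEv hEu huv (fun _ => true)).append
      (framePath E hE hEv hEu huv (fun _ => false)).reverse).edges.toFinset ∈ allCycles n v := by
  classical
  set U := framePath E hE hEv hEu huv (fun _ => true) with hU
  set D := framePath E hE hEv hEu huv (fun _ => false) with hD
  have hp1 := isPath_of_mono (hgt E v u) U (framePath_mono E hE hEv hEu huv (fun _ => true))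
  have hp2 := isPath_of_mono (hgt E v u) D (framePath_mono E hE hEv hEu huv (fun _ => false))
  rw [allCycles, Finset.mem_filter]
  refine ⟨Finset.mem_univ _, _, ?_, rfl⟩
  refine hp1.isCycle_append hp2.reverse ?_ ?_
  · intro x hx hx'
    have hxs : x ∈ U.support := List.mem_of_mem_tail hx
    have hxv : x ≠ v := by
      rintro rfl
      have := hp1.support_nodup
      rw [U.support_eq_cons] at this
      exact (List.nodup_cons.1 this).1 (by simpa using hx)
    have hxs' : x ∈ D.support := by
      have := List.mem_of_mem_tail hx'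
      rwa [Walk.support_reverse, List.mem_reverse] at this
    have hxu : x ≠ u := by
      rintro rfl
      have := hp2.reverse.support_nodup
      rw [D.reverse.support_eq_cons] at this
      exact (List.nodup_cons.1 this).1 (by simpa using hx')
    rcases (mem_framePath E hE hEv hEu huv _ x).1 hxs with h1 | ⟨j, h1⟩ | h1
    · exact hxv h1
    · rcases (mem_framePath E hE hEv hEu huv _ x).1 hxs' with h2 | ⟨k, h2⟩ | h2
      · exact hxv h2
      · have := hE (h1.trans h2.symm)
        simp at this
      · exact hxu h2
    · exact hxu h1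
  · rw [Walk.length_reverse, hU, hD, framePath_length, framePath_length]
    omega

/-- The signed sum over the transversals does not vanish against the path through the lower
elements. -/
theorem sum_sgn_ne_zero (h2 : (2 : F) ≠ 0) (P : WalkProgram n v F) (hinv : P.RelabelInvariant)
    (hcount : ∀ G : SimpleGraph (Fin n), P.output G = (cycleCount G v : F))
    (hn : 2 * h + 2 ≤ n) (hn' : n ≤ 2 * h + 3) (hh : 1 ≤ h) :
    ∑ c : Fin h → Bool, sgn F c * P.weight ((framePath E hE hEv hEu huv c).append
      (framePath E hE hEv hEu huv (fun _ => false)).reverse) ≠ 0 := by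
  rw [Finset.sum_eq_single (fun _ => true)]
  · refine mul_ne_zero (sgn_ne_zero _) ?_
    obtain ⟨N, -, hN⟩ := weight_mul E hE hEv hEu huv P hinv hcount hn hn' (fun _ => true)
    rw [if_pos (is_cycle E hE hEv hEu huv hh)] at hN
    intro h0
    rw [h0, mul_zero] at hN
    exact zero_ne_one hN
  · intro c _ hc
    obtain ⟨N, hN1, hN⟩ := weight_mul E hE hEv hEu huv P hinv hcount hn hn' c
    obtain ⟨i, hi⟩ : ∃ i, c i = false := by
      by_contra hcon
      push Not at hcon
      exact hc (funext fun i => by simpa using hcon i)
    rw [if_neg (not_cycle E hE hEv hEu huv c i hi)] at hN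
    rcases mul_eq_zero.1 hN with h0 | h0
    · exfalso
      obtain ⟨k, hk⟩ := hN1
      have h3 : ((2 ^ n : ℕ) : F) = 0 := by rw [hk, Nat.cast_mul, h0, zero_mul]
      rw [Nat.cast_pow, Nat.cast_ofNat] at h3
      exact pow_ne_zero n h2 h3
    · rw [h0, mul_zero]
  · intro h1
    exact absurd (Finset.mem_univ _) h1

end Frame

/-- A triangular family of vectors in `F ^ d` has at most `d` elements. -/
theorem card_le_of_triangular {ι : Type*} [Fintype ι] {d : ℕ} (r c : ι → (Fin d → F)) (s : ι → ℕ)
    (h1 : ∀ i, dotProduct (r i) (c i) ≠ 0)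
    (h2 : ∀ i j, i ≠ j → s j ≤ s i → dotProduct (r i) (c j) = 0) :
    Fintype.card ι ≤ d := by
  classical
  have hli : LinearIndependent F r := by
    rw [Fintype.linearIndependent_iff]
    intro g hg
    by_contra hcon
    push Not at hcon
    obtain ⟨i₀, hi₀⟩ := hcon
    obtain ⟨j, hj, hmin⟩ := Finset.exists_min_image (Finset.univ.filter (fun i => g i ≠ 0)) s
      ⟨i₀, by simp [hi₀]⟩
    rw [Finset.mem_filter] at hj
    have h := congrArg (fun x => dotProduct x (c j)) hg
    simp only [sum_dotProduct, smul_dotProduct, zero_dotProduct] at h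
    rw [Finset.sum_eq_single j] at h
    · rw [smul_eq_mul, mul_eq_zero] at h
      rcases h with h | h
      · exact hj.2 h
      · exact h1 j h
    · intro i _ hij
      by_cases hgi : g i = 0
      · rw [hgi, zero_smul]
      · rw [h2 i j hij (hmin i (by simp [hgi])), smul_zero]
    · intro hj
      exact absurd (Finset.mem_univ j) hj
  have := hli.fintype_card_le_finrank
  simpa using this

theorem catalan_le_nodes (h2 : (2 : F) ≠ 0) (P : WalkProgram n v F) (hinv : P.RelabelInvariant)
    (hcount : ∀ G : SimpleGraph (Fin n), P.output G = (cycleCount G v : F)) {u : Fin n}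
    (huv : u ≠ v) (h : ℕ) (hh : 1 ≤ h) (hn : 2 * h + 2 ≤ n) (hn' : n ≤ 2 * h + 3) :
    catalan h ≤ P.nodes (h + 1) u := by
  classical
  -- the vertices of the pairs
  obtain ⟨O, hOv, hOu, hOc⟩ : ∃ O : Finset (Fin n), v ∉ O ∧ u ∉ O ∧ 2 * h ≤ O.card := by
    refine ⟨(Finset.univ.erase v).erase u, by simp, by simp, ?_⟩
    rw [Finset.card_erase_of_mem (by simp [huv]), Finset.card_erase_of_mem (by simp)]
    simp
    omega
  set G : Fin O.card ↪o Fin n := O.orderEmbOfFin rfl with hG
  have hGO : ∀ k, G k ∈ O := fun k => O.orderEmbOfFin_mem rfl k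
  have hfr : ∀ w : {w : DyckWord // w.semilength = h}, ∃ e : Fin h × Bool → ℕ,
      Function.Injective e ∧ (∀ k, e k < 2 * h) ∧ (∀ i, e (i, false) < e (i, true)) ∧
      ∀ x, (∃ i, e (i, false) = x) ↔ w.1.toList[x]? = some DyckStep.U :=
    fun w => exists_frame h w.1 w.2
  choose e he1 he2 he3 he4 using hfr
  have hbd : ∀ w k, e w k < O.card := fun w k => (he2 w k).trans_le hOc
  obtain ⟨E, hE⟩ : ∃ E : {w : DyckWord // w.semilength = h} → Fin h × Bool → Fin n,
      ∀ w k, E w k = G ⟨e w k, hbd w k⟩ := ⟨_, fun _ _ => rfl⟩
  have hEE : ∀ w w' k k', E w k = E w' k' → e w k = e w' k' := by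
    intro w w' k k' hk
    rw [hE, hE] at hk
    have := G.injective hk
    simpa using this
  have hEi : ∀ w, Function.Injective (E w) := by
    intro w k k' hk
    exact he1 w (hEE w w k k' hk)
  have hEv : ∀ w k, E w k ≠ v := by
    intro w k hk
    rw [hE] at hk
    exact hOv (hk ▸ hGO _)
  have hEu : ∀ w k, E w k ≠ u := by
    intro w k hk
    rw [hE] at hk
    exact hOu (hk ▸ hGO _)
  have hrow : ∀ (w : {w : DyckWord // w.semilength = h}) (c : Fin h → Bool),
      ∃ r : Fin (P.nodes (h + 1) u) → F, ∀ q : (⊤ : SimpleGraph (Fin n)).Walk u v,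
        P.weight ((framePath (E w) (hEi w) (hEv w) (hEu w) huv c).append q) =
          dotProduct r (P.value (h + 1) q) := by
    intro w c
    exact exists_row P _ 0 (h + 1) P.start (by rw [framePath_length]; ring)
  choose r hr using hrow
  have hfin := card_le_of_triangular (ι := {w : DyckWord // w.semilength = h})
    (fun w => ∑ c : Fin h → Bool, sgn F c • r w c)
    (fun w => P.value (h + 1)
      (framePath (E w) (hEi w) (hEv w) (hEu w) huv (fun _ => false)).reverse)
    (fun w => ∑ i, e w (i, false)) ?_ ?_
  · rwa [DyckWord.card_dyckWord_semilength_eq_catalan] at hfin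
  · intro w
    rw [sum_dotProduct]
    simp only [smul_dotProduct, ← hr w, smul_eq_mul]
    exact sum_sgn_ne_zero (E w) (hEi w) (hEv w) (hEu w) huv h2 P hinv hcount hn hn' hh
  · intro w w' hne hs
    rw [sum_dotProduct]
    simp only [smul_dotProduct, ← hr w, smul_eq_mul]
    have hex : ∃ i, ∀ b, ∀ j, e w (i, b) ≠ e w' (j, false) := by
      by_contra hcon
      push Not at hcon
      have h3 := frame_offdiag (e w) (e w') (he1 w) (he3 w) hs hcon
      refine hne (Subtype.ext (dyck_ext w.1 w'.1 w.2 w'.2 fun x => ?_))
      rw [← he4 w x, ← he4 w' x]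
      exact h3 x
    obtain ⟨i, hi⟩ := hex
    refine sum_sgn_eq_zero (E w) (hEi w) (hEv w) (hEu w) huv P hinv _ i fun b hb => ?_
    rw [Walk.support_reverse, List.mem_reverse, mem_framePath] at hb
    rcases hb with hb | ⟨j, hb⟩ | hb
    · exact hEv w _ hb
    · exact hi b j (hEE w w' _ _ hb.symm)
    · exact hEu w _ hb

end Pool.Agent.WalkProg43
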