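import Pool.Agent.WalkProg43.Basic

/-! The dynamic program of Bellman and Held-Karp as a branching program over walks. -/

namespace Pool.Agent.WalkProg43

open SimpleGraph

variable {n : ℕ} {v : Fin n} {F : Type} [Field F]

/-- The states of the program at time `t` with label `a`. -/
def st (v : Fin n) (t : ℕ) (a : Fin n) : Finset (Finset (Fin n)) :=
  if a = v then {∅} else ((Finset.univ.erase v).powersetCard t).filter (fun S => a ∈ S)

/-- The set belonging to a node. -/
noncomputable def setOf' (v : Fin n) (t : ℕ) (a : Fin n) (i : Fin (st v t a).card) :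
    Finset (Fin n) := ((st v t a).equivFin.symm i).1

theorem setOf'_mem (v : Fin n) (t : ℕ) (a : Fin n) (i : Fin (st v t a).card) :
    setOf' v t a i ∈ st v t a := ((st v t a).equivFin.symm i).2

theorem sum_setOf' {M : Type*} [AddCommMonoid M] (v : Fin n) (t : ℕ) (a : Fin n)
    (f : Finset (Fin n) → M) :
    ∑ i : Fin (st v t a).card, f (setOf' v t a i) = ∑ S ∈ st v t a, f S := by
  rw [← Finset.sum_coe_sort (st v t a) f]
  exact Fintype.sum_equiv (st v t a).equivFin.symm _ _ (fun i => rfl)

/-- The program of Bellman and Held-Karp. -/
noncomputable def heldKarp (n : ℕ) (v : Fin n) (F : Type) [Field F] : WalkProgram n v F where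
  nodes t a := (st v t a).card
  start := fun _ => 1
  step t a b := fun i j =>
    if b = v then (if a = v then 0 else 1)
    else if (a = v → t = 0) ∧ b ∉ setOf' v t a i ∧
      setOf' v (t + 1) b j = insert b (setOf' v t a i) then 1 else 0
  out t := fun _ => if 3 ≤ t then 2⁻¹ else 0

/-- The walk `p` from `a` to `v` can be continued to a cycle with the visited set `S`. -/
def Good {G : SimpleGraph (Fin n)} {a : Fin n} (t : ℕ) (S : Finset (Fin n)) (p : G.Walk a v) :
    Prop := p.support.tail.Nodup ∧ (∀ x ∈ p.support.tail, x ∉ S) ∧ 3 ≤ t + p.length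

theorem mem_st {t : ℕ} {a : Fin n} (ha : a ≠ v) {S : Finset (Fin n)} :
    S ∈ st v t a ↔ v ∉ S ∧ S.card = t ∧ a ∈ S := by
  unfold st
  rw [if_neg ha, Finset.mem_filter, Finset.mem_powersetCard]
  constructor
  · rintro ⟨⟨h1, h2⟩, h3⟩
    exact ⟨fun h => by simpa using h1 h, h2, h3⟩
  · rintro ⟨h1, h2, h3⟩
    refine ⟨⟨fun x hx => ?_, h2⟩, h3⟩
    rw [Finset.mem_erase]
    exact ⟨fun h => h1 (h ▸ hx), Finset.mem_univ _⟩

theorem st_self (t : ℕ) : st v t v = {∅} := by simp [st]

theorem insert_mem_st {t : ℕ} {b : Fin n} (hb : b ≠ v) {S : Finset (Fin n)}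
    (hS : v ∉ S) (hc : S.card = t) (hbS : b ∉ S) : insert b S ∈ st v (t + 1) b := by
  rw [mem_st hb]
  refine ⟨?_, by rw [Finset.card_insert_of_notMem hbS, hc], Finset.mem_insert_self _ _⟩
  rw [Finset.mem_insert]
  rintro (h | h)
  · exact hb h.symm
  · exact hS h

/-- At `v` at a positive time only the end of the walk counts. -/
theorem value_self {G : SimpleGraph (Fin n)} (t : ℕ) (ht : t ≠ 0) (p : G.Walk v v)
    (i : Fin (st v t v).card) :
    (heldKarp n v F).value t p i = if p.length = 0 ∧ 3 ≤ t then 2⁻¹ else 0 := by
  cases p with
  | nil => simp [WalkProgram.value, heldKarp]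
  | @cons _ b _ h p =>
    have hb : b ≠ v := fun hh => G.loopless.irrefl v (hh ▸ h)
    rw [if_neg (by simp)]
    simp only [WalkProgram.value, Matrix.mulVec, dotProduct]
    refine Finset.sum_eq_zero fun j _ => ?_
    simp [heldKarp, hb, ht]

open Classical in
theorem value_good {G : SimpleGraph (Fin n)} :
    ∀ {a : Fin n} (t : ℕ) (p : G.Walk a v), a ≠ v → ∀ (i : Fin (st v t a).card),
      (heldKarp n v F).value t p i =
        if Good t (setOf' v t a i) p then 2⁻¹ else 0
  | _, _, .nil, ha, _ => absurd rfl ha
  | a, t, .cons (v := b) h p, ha, i => by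
    have hS := (mem_st ha).1 (setOf'_mem v t a i)
    set S := setOf' v t a i with hSdef
    by_cases hb : b = v
    · subst hb
      have h1 : (heldKarp n b F).value t (Walk.cons h p) i =
          ∑ j : Fin (st b (t + 1) b).card,
            (if p.length = 0 ∧ 3 ≤ t + 1 then (2⁻¹ : F) else 0) := by
        simp only [WalkProgram.value, Matrix.mulVec, dotProduct]
        refine Finset.sum_congr rfl fun j _ => ?_
        rw [value_self (t + 1) (by omega) p j]
        simp [heldKarp, ha]
      rw [h1, Finset.sum_const, Finset.card_univ, Fintype.card_fin, st_self,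
        Finset.card_singleton, one_smul]
      have h2 : Good t S (Walk.cons h p) ↔ p.length = 0 ∧ 3 ≤ t + 1 := by
        unfold Good
        rw [Walk.support_cons, List.tail_cons, Walk.length_cons]
        constructor
        · rintro ⟨h3, -, h5⟩
          have h6 : p.length = 0 := by
            cases p with
            | nil => rfl
            | cons h' p' =>
              rw [Walk.support_cons, List.nodup_cons] at h3
              exact absurd p'.end_mem_support h3.1
          omega
        · rintro ⟨h3, h4⟩
          have h5 : p = Walk.nil := by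
            cases p with
            | nil => rfl
            | cons h' p' => simp at h3
          subst h5
          refine ⟨by simp, ?_, by simp; omega⟩
          intro x hx
          simp only [Walk.support_nil, List.mem_singleton] at hx
          rw [hx]
          exact hS.1
      simp only [h2]
    · obtain ⟨f, hf⟩ : ∃ f : Finset (Fin n) → F, ∀ S', f S' = if b ∉ S ∧ S' = insert b S then
              (if Good (t + 1) S' p then (2⁻¹ : F) else 0) else 0 := ⟨_, fun _ => rfl⟩
      have h1 : (heldKarp n v F).value t (Walk.cons h p) i =
          ∑ j : Fin (st v (t + 1) b).card, f (setOf' v (t + 1) b j) := by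
        simp only [WalkProgram.value, Matrix.mulVec, dotProduct, hf]
        refine Finset.sum_congr rfl fun j _ => ?_
        rw [value_good (t + 1) p hb j]
        simp only [heldKarp, hb, ha, if_false, false_implies, true_and, ← hSdef]
        split_ifs <;> simp
      rw [h1, sum_setOf']
      simp only [hf]
      by_cases hbS : b ∈ S
      · rw [if_neg]
        · refine Finset.sum_eq_zero fun S' _ => ?_
          simp [hbS]
        · intro hg
          exact hg.2.1 b (by simp) hbS
      · rw [Finset.sum_eq_single (insert b S)]
        · have h2 : Good t S (Walk.cons h p) ↔ Good (t + 1) (insert b S) p := by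
            unfold Good
            have h3 : p.support = b :: p.support.tail := (Walk.cons_tail_support p).symm
            rw [Walk.support_cons, List.tail_cons, Walk.length_cons, h3, List.nodup_cons]
            simp only [List.tail_cons, List.forall_mem_cons, Finset.mem_insert, not_or]
            constructor
            · rintro ⟨⟨h4, h5⟩, ⟨h6, h7⟩, h8⟩
              exact ⟨h5, fun x hx => ⟨fun hh => h4 (hh ▸ hx), h7 x hx⟩, by omega⟩
            · rintro ⟨h4, h5, h6⟩
              exact ⟨⟨fun hh => (h5 b hh).1 rfl, h4⟩, ⟨hbS, fun x hx => (h5 x hx).2⟩, by omega⟩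
          simp only [h2, hbS, not_false_eq_true, and_self, if_true]
        · intro S' _ hS'
          simp [hS']
        · intro hn
          exact absurd (insert_mem_st hb hS.1 hS.2.1 hbS) hn

open Classical in
theorem weight_heldKarp {G : SimpleGraph (Fin n)} (p : G.Walk v v) :
    (heldKarp n v F).weight p = if p.IsCycle then 2⁻¹ else 0 := by
  have hS0 : ∀ i : Fin (st v 0 v).card, setOf' v 0 v i = ∅ := by
    intro i
    have := setOf'_mem v 0 v i
    rw [st_self] at this
    simpa using this
  cases p with
  | nil =>
    rw [if_neg (by simp)]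
    simp [WalkProgram.weight, WalkProgram.value, heldKarp, dotProduct]
  | @cons _ b _ h p =>
    have hb : b ≠ v := fun hh => G.loopless.irrefl v (hh ▸ h)
    have h1 : ∀ i : Fin (st v 0 v).card, (heldKarp n v F).value 0 (Walk.cons h p) i =
        if Good 1 {b} p then 2⁻¹ else 0 := by
      intro i
      obtain ⟨f, hf⟩ : ∃ f : Finset (Fin n) → F, ∀ S', f S' = if S' = {b} then
              (if Good 1 S' p then (2⁻¹ : F) else 0) else 0 := ⟨_, fun _ => rfl⟩
      have h2 : (heldKarp n v F).value 0 (Walk.cons h p) i =
          ∑ j : Fin (st v (0 + 1) b).card, f (setOf' v (0 + 1) b j) := by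
        simp only [WalkProgram.value, Matrix.mulVec, dotProduct, hf]
        refine Finset.sum_congr rfl fun j _ => ?_
        rw [value_good (0 + 1) p hb j]
        simp only [heldKarp, hb, if_false, hS0, implies_true, Finset.notMem_empty,
          not_false_eq_true, true_and, zero_add, insert_empty_eq]
        split_ifs <;> simp
      rw [h2, sum_setOf']
      simp only [hf]
      rw [Finset.sum_eq_single {b}]
      · simp
      · intro S' _ hS'
        simp [hS']
      · intro hn
        exact absurd ((mem_st hb).2 ⟨by simpa using hb.symm, by simp, by simp⟩) hn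
    have h3 : (heldKarp n v F).weight (Walk.cons h p) =
        ∑ i : Fin (st v 0 v).card, (if Good 1 {b} p then (2⁻¹ : F) else 0) := by
      unfold WalkProgram.weight dotProduct
      refine Finset.sum_congr rfl fun i _ => ?_
      rw [h1 i]
      simp [heldKarp]
    rw [h3, Finset.sum_const, Finset.card_univ, Fintype.card_fin, st_self,
      Finset.card_singleton, one_smul]
    have h4 : (Walk.cons h p).IsCycle ↔ Good 1 {b} p := by
      rw [Walk.isCycle_iff_isPath_tail_and_le_length]
      have h5 : p.support = b :: p.support.tail := (Walk.cons_tail_support p).symm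
      have h6 : (Walk.cons h p).tail.IsPath ↔ p.support.Nodup := by
        rw [Walk.isPath_def, Walk.support_tail_of_not_nil _ (by simp), Walk.support_cons,
          List.tail_cons]
      rw [h6, h5, List.nodup_cons, Walk.length_cons]
      unfold Good
      simp only [Finset.mem_singleton]
      constructor
      · rintro ⟨⟨h7, h8⟩, h9⟩
        exact ⟨h8, fun x hx hh => h7 (hh ▸ hx), by omega⟩
      · rintro ⟨h7, h8, h9⟩
        exact ⟨⟨fun hh => h8 b hh rfl, h7⟩, by omega⟩
    simp only [h4]

end Pool.Agent.WalkProg43
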