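import Pool.Agent.WalkProg43.Fiber2

/-! The lower bound, over every field of characteristic different from two. -/

namespace Pool.Agent.WalkProg43

open SimpleGraph

variable {n : ℕ} {v : Fin n} {F : Type} [Field F]

theorem weight_zero_or (P : WalkProgram n v F) (hsym : P.EdgeSymmetric)
    (hcount : ∀ G : SimpleGraph (Fin n), P.output G = (cycleCount G v : F)) {u : Fin n}
    (huv : u ≠ v)
    (U D : (⊤ : SimpleGraph (Fin n)).Walk v u)
    (hU : U.support.Pairwise (fun x y => lev v u x < lev v u y))
    (hD : D.support.Pairwise (fun x y => lev v u x < lev v u y))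
    (hlen : (U.append D.reverse).length = n) :
    ∃ N : ℕ, N ∣ 2 ^ n ∧ (N : F) * P.weight (U.append D.reverse) =
      if (U.append D.reverse).edges.toFinset ∈ allCycles n v then 1 else 0 := by
  classical
  have h := fiber_sum P hcount (U.append D.reverse).edges.toFinset
  refine ⟨((allWalks n v).filter (fun p => p.edges.toFinset =
    (U.append D.reverse).edges.toFinset)).card, ?_, ?_⟩
  · exact fiber_card_dvd U D hU hD huv hlen
  · rw [← h]
    have hc : ∀ p ∈ (allWalks n v).filter (fun p => p.edges.toFinset =
        (U.append D.reverse).edges.toFinset), P.weight p = P.weight (U.append D.reverse) := by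
      intro p hp
      rw [Finset.mem_filter, mem_allWalks] at hp
      exact hsym p _ (perm_of_length_le U D hU hD p hp.2 (by rw [hlen]; exact hp.1))
    rw [Finset.sum_congr rfl hc, Finset.sum_const, nsmul_eq_mul]

/-- The main bound: the number of nodes at time `h + 1` with label `u`. -/
theorem choose_le_nodes (h2 : (2 : F) ≠ 0) (hn : 3 ≤ n) (P : WalkProgram n v F)
    (hsym : P.EdgeSymmetric)
    (hcount : ∀ G : SimpleGraph (Fin n), P.output G = (cycleCount G v : F)) {u : Fin n}
    (huv : u ≠ v) (h : ℕ) (hh : h ≤ n - 2) : (n - 2).choose h ≤ P.nodes (h + 1) u := by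
  classical
  set O : Finset (Fin n) := (Finset.univ.erase v).erase u with hO
  have hOv : v ∉ O := by simp [hO]
  have hOu : u ∉ O := by simp [hO]
  have hOc : O.card = n - 2 := by
    rw [hO, Finset.card_erase_of_mem (by simp [huv]), Finset.card_erase_of_mem (by simp)]
    simp
    omega
  obtain ⟨p0, -⟩ := exists_up huv ∅ (by simp) (by simp)
  haveI : Nonempty ((⊤ : SimpleGraph (Fin n)).Walk v u) := ⟨p0⟩
  have hex : ∀ S : Finset (Fin n), S ⊆ O → ∃ p : (⊤ : SimpleGraph (Fin n)).Walk v u,
      p.support.Pairwise (fun x y => lev v u x < lev v u y) ∧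
        (∀ x, x ∈ p.support ↔ x = v ∨ x ∈ S ∨ x = u) ∧ p.length = S.card + 1 :=
    fun S hS => exists_up huv S (fun hh => hOv (hS hh)) (fun hh => hOu (hS hh))
  choose! up hup1 hup2 hup3 using hex
  -- the lengths
  have hlen : ∀ S W : Finset (Fin n), S ⊆ O → W ⊆ O → S.card = h → W.card = h →
      ((up S).append (up (O \ W)).reverse).length = n := by
    intro S W hS hW hSc hWc
    rw [Walk.length_append, Walk.length_reverse, hup3 S hS, hup3 (O \ W) Finset.sdiff_subset,
      Finset.card_sdiff_of_subset hW, hOc, hSc, hWc]
    omega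
  -- off-diagonal weights vanish
  have hoff : ∀ S W : Finset (Fin n), S ⊆ O → W ⊆ O → S.card = h → W.card = h → S ≠ W →
      P.weight ((up S).append (up (O \ W)).reverse) = 0 := by
    intro S W hS hW hSc hWc hne
    obtain ⟨N, hN, hN2⟩ := weight_zero_or P hsym hcount huv (up S) (up (O \ W)) (hup1 S hS)
      (hup1 _ Finset.sdiff_subset) (hlen S W hS hW hSc hWc)
    rw [if_neg] at hN2
    · rcases mul_eq_zero.1 hN2 with h0 | h0
      · exfalso
        obtain ⟨k, hk⟩ := hN
        have h3 : ((2 ^ n : ℕ) : F) = 0 := by rw [hk, Nat.cast_mul, h0, zero_mul]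
        rw [Nat.cast_pow, Nat.cast_ofNat] at h3
        exact pow_ne_zero n h2 h3
      · exact h0
    · intro hmem
      rw [allCycles, Finset.mem_filter] at hmem
      obtain ⟨-, p, hpc, hpe⟩ := hmem
      have hle := edges_le (up S) (up (O \ W)) (hup1 S hS) (hup1 _ Finset.sdiff_subset) p hpe
      have hcard := Multiset.card_le_card hle
      rw [Multiset.coe_card, Multiset.coe_card, Walk.length_edges, Walk.length_edges,
        hlen S W hS hW hSc hWc] at hcard
      -- the vertices of the cycle
      have hsub : p.support.tail.toFinset ⊆ insert v (insert u (S ∪ (O \ W))) := by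
        intro x hx
        have hx' : x ∈ p.support := List.mem_of_mem_tail (List.mem_toFinset.1 hx)
        rw [Walk.mem_support_iff_exists_mem_edges_of_not_nil hpc.not_nil] at hx'
        obtain ⟨e, he, hxe⟩ := hx'
        have he' : e ∈ ((up S).edges ++ (up (O \ W)).edges).toFinset := by
          rw [← toFinset_append_reverse, ← hpe]
          exact List.mem_toFinset.2 he
        rw [List.mem_toFinset, List.mem_append] at he'
        rcases he' with he' | he'
        · have := (hup2 S hS x).1 (Walk.mem_support_of_mem_edges he' hxe)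
          simp only [Finset.mem_insert, Finset.mem_union]
          tauto
        · have := (hup2 _ Finset.sdiff_subset x).1 (Walk.mem_support_of_mem_edges he' hxe)
          simp only [Finset.mem_insert, Finset.mem_union]
          tauto
      have hc1 : p.support.tail.toFinset.card = p.length := by
        rw [List.toFinset_card_of_nodup hpc.support_nodup, List.length_tail, Walk.length_support]
        simp
      have hc2 := Finset.card_le_card hsub
      rw [hc1] at hc2
      have hSW : ¬ S ⊆ W := fun hsub => hne (Finset.eq_of_subset_of_card_le hsub (by omega))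
      obtain ⟨z, hzS, hzW⟩ := Finset.not_subset.1 hSW
      have hinter : 1 ≤ (S ∩ (O \ W)).card := by
        rw [Nat.succ_le_iff, Finset.card_pos]
        exact ⟨z, by simp [hzS, hzW, hS hzS]⟩
      have hun := Finset.card_union_add_card_inter S (O \ W)
      rw [Finset.card_sdiff_of_subset hW, hOc, hSc, hWc] at hun
      have hi1 := Finset.card_insert_le v (insert u (S ∪ (O \ W)))
      have hi2 := Finset.card_insert_le u (S ∪ (O \ W))
      omega
  -- diagonal weights do not vanish
  have hdiag : ∀ S : Finset (Fin n), S ⊆ O → S.card = h →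
      P.weight ((up S).append (up (O \ S)).reverse) ≠ 0 := by
    intro S hS hSc h0
    obtain ⟨N, hN, hN2⟩ := weight_zero_or P hsym hcount huv (up S) (up (O \ S)) (hup1 S hS)
      (hup1 _ Finset.sdiff_subset) (hlen S S hS hS hSc hSc)
    rw [if_pos, h0, mul_zero] at hN2
    · exact zero_ne_one hN2
    · rw [allCycles, Finset.mem_filter]
      refine ⟨Finset.mem_univ _, _, ?_, rfl⟩
      have hp1 := isPath_of_mono (lev v u) (up S) (hup1 S hS)
      have hp2 := isPath_of_mono (lev v u) (up (O \ S)) (hup1 _ Finset.sdiff_subset)
      refine hp1.isCycle_append hp2.reverse ?_ ?_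
      · intro x hx hx'
        have hxs : x ∈ (up S).support := List.mem_of_mem_tail hx
        have hxv : x ≠ v := by
          rintro rfl
          have := hp1.support_nodup
          rw [(up S).support_eq_cons] at this
          exact (List.nodup_cons.1 this).1 (by simpa using hx)
        have hxs' : x ∈ (up (O \ S)).support := by
          have := List.mem_of_mem_tail hx'
          rwa [Walk.support_reverse, List.mem_reverse] at this
        have hxu : x ≠ u := by
          rintro rfl
          have := hp2.reverse.support_nodup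
          rw [(up (O \ S)).reverse.support_eq_cons] at this
          exact (List.nodup_cons.1 this).1 (by simpa using hx')
        have h1 := (hup2 S hS x).1 hxs
        have h2 := (hup2 _ Finset.sdiff_subset x).1 hxs'
        rw [Finset.mem_sdiff] at h2
        tauto
      · rw [Walk.length_reverse, hup3 S hS, hup3 _ Finset.sdiff_subset,
          Finset.card_sdiff_of_subset hS, hOc, hSc]
        omega
  -- the rank argument
  have hrow : ∀ S : Finset (Fin n), S ⊆ O → S.card = h → ∃ r : Fin (P.nodes (h + 1) u) → F,
      ∀ q : (⊤ : SimpleGraph (Fin n)).Walk u v,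
        P.weight ((up S).append q) = dotProduct r (P.value (h + 1) q) := by
    intro S hS hSc
    exact exists_row P (up S) 0 (h + 1) P.start (by rw [hup3 S hS, hSc]; ring)
  choose! r hr using hrow
  have hfin := card_le_of_biorth (ι := {S // S ∈ O.powersetCard h})
    (fun S => r S.1) (fun S => P.value (h + 1) (up (O \ S.1)).reverse) ?_ ?_
  · rw [Fintype.card_coe, Finset.card_powersetCard, hOc] at hfin
    exact hfin
  · rintro ⟨S, hS⟩
    rw [Finset.mem_powersetCard] at hS
    rw [← hr S hS.1 hS.2]
    exact hdiag S hS.1 hS.2
  · rintro ⟨S, hS⟩ ⟨W, hW⟩ hne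
    rw [Finset.mem_powersetCard] at hS hW
    have hne' : S ≠ W := fun hh => hne (Subtype.ext hh)
    show dotProduct (r S) (P.value (h + 1) (up (O \ W)).reverse) = 0
    rw [← hr S hS.1 hS.2]
    exact hoff S W hS.1 hW.1 hS.2 hW.2 hne'

theorem size_lower (h2 : (2 : F) ≠ 0) (hn : 3 ≤ n) (P : WalkProgram n v F)
    (hsym : P.EdgeSymmetric)
    (hcount : ∀ G : SimpleGraph (Fin n), P.output G = (cycleCount G v : F)) :
    (n - 1) * 2 ^ (n - 2) ≤ P.size := by
  unfold WalkProgram.size
  have h1 : ∀ t ∈ Finset.Icc 1 (n - 1), (n - 1) * (n - 2).choose (t - 1) ≤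
      ∑ a ∈ Finset.univ.erase v, P.nodes t a := by
    intro t ht
    rw [Finset.mem_Icc] at ht
    have hc : (Finset.univ.erase v : Finset (Fin n)).card = n - 1 := by simp
    have := Finset.card_nsmul_le_sum (Finset.univ.erase v) (fun a => P.nodes t a)
      ((n - 2).choose (t - 1)) (by
        intro a ha
        have h := choose_le_nodes h2 hn P hsym hcount (Finset.ne_of_mem_erase ha) (t - 1) (by omega)
        have ht' : t - 1 + 1 = t := by omega
        rwa [ht'] at h)
    rwa [hc, smul_eq_mul] at this
  refine le_trans (le_of_eq ?_) (Finset.sum_le_sum h1)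
  rw [← Finset.mul_sum]
  congr 1
  have : ∑ t ∈ Finset.Icc 1 (n - 1), (n - 2).choose (t - 1) =
      ∑ m ∈ Finset.range (n - 2 + 1), (n - 2).choose m := by
    refine Finset.sum_bij' (fun t _ => t - 1) (fun m _ => m + 1) ?_ ?_ ?_ ?_ ?_
    · intro t ht
      rw [Finset.mem_Icc] at ht
      rw [Finset.mem_range]
      omega
    · intro m hm
      rw [Finset.mem_range] at hm
      rw [Finset.mem_Icc]
      omega
    · intro t ht
      rw [Finset.mem_Icc] at ht
      omega
    · intro m hm
      omega
    · intro t ht
      rfl
  rw [this, Nat.sum_range_choose]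

end Pool.Agent.WalkProg43
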